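import Pool.Agent.Helper99.HD.Pt

/-!
The inequality along a line for signed functions.
-/

set_option autoImplicit false
open Real

namespace Pool.Agent.Helper99.HD

open Pool.Agent.E8helper19.LW

noncomputable section

variable {δ κ : ℝ}

/-- the function `Φ` in terms of the primitive `P = ∫_0^u g` -/
def Phi (δ κ P p s r : ℝ) : ℝ :=
  P * Wf κ s r * (p / (δ * Ef κ s + p ^ 2)) + 88 / 25 * √δ * (s * arctan (p / et δ κ s))

lemma core {r k p S q w P W H G : ℝ} (r0 : 0 < r) (k0 : 0 < k) (hP : |P| ≤ r ^ 2)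
    (hG : |G| ≤ 1) (W0 : 0 ≤ W) (W1 : W ≤ 44 / 25 * (S ^ 2 / k)) (hS : |S| ≤ k ^ 2)
    (hH : |H| ≤ k * (6 * |q| + 5 * |w|)) :
    G * W ≤ (G * p * W + P * H) * (p / (r ^ 2 * k ^ 2 + p ^ 2)) +
      P * W * ((S * (r ^ 2 * k ^ 2 + p ^ 2) - p * (r ^ 2 * (S * q / k ^ 2) + 2 * p * S)) /
        (r ^ 2 * k ^ 2 + p ^ 2) ^ 2) + 88 / 25 * r * (S ^ 2 * (r * k) / ((r * k) ^ 2 + p ^ 2)) +
      r * (97 / 25 * |q| + 5 / 2 * |w|) := by
  obtain ⟨M, hM⟩ : ∃ M, M = r ^ 2 * k ^ 2 + p ^ 2 := ⟨_, rfl⟩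
  have M0 : 0 < M := by rw [hM]; positivity
  have mM : r ^ 2 * k ^ 2 ≤ M := by rw [hM]; nlinarith [sq_nonneg p]
  have e1 : (r * k) ^ 2 + p ^ 2 = M := by rw [hM]; ring
  rw [e1, ← hM]
  have pM : 2 * (r * k) * |p| ≤ M := by
    rw [hM, ← sq_abs p]; nlinarith [sq_nonneg (r * k - |p|)]
  have Y1 : |p / M| ≤ 1 / (2 * (r * k)) := by
    rw [abs_div, abs_of_pos M0, div_le_div_iff₀ M0 (by positivity)]
    linarith
  -- the decomposition
  have dec : G * W = G * W * (r ^ 2 * k ^ 2 / M) + G * p * W * (p / M) := by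
    have : r ^ 2 * k ^ 2 = M - p ^ 2 := by rw [hM]; ring
    rw [this]; field_simp; ring
  have b0 : G * W * (r ^ 2 * k ^ 2 / M) ≤ W * (r ^ 2 * k ^ 2 / M) := by
    have h1 : G * W ≤ W := by
      have := (abs_le.1 hG).2
      nlinarith
    exact mul_le_mul_of_nonneg_right h1 (by positivity)
  have b1 : -(P * H * (p / M)) ≤ r * (3 * |q| + 5 / 2 * |w|) := by
    refine (neg_le_abs _).trans ?_
    rw [abs_mul, abs_mul]
    have h1 : |P| * |H| ≤ r ^ 2 * (k * (6 * |q| + 5 * |w|)) :=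
      mul_le_mul hP hH (abs_nonneg _) (by positivity)
    calc |P| * |H| * |p / M| ≤ r ^ 2 * (k * (6 * |q| + 5 * |w|)) * (1 / (2 * (r * k))) :=
          mul_le_mul h1 Y1 (abs_nonneg _) (by positivity)
      _ = r * (3 * |q| + 5 / 2 * |w|) := by field_simp; ring
  have b2 : -(P * W * ((S * M - p * (r ^ 2 * (S * q / k ^ 2) + 2 * p * S)) / M ^ 2)) ≤
      W * (r ^ 2 * k ^ 2 / M) + 22 / 25 * r * |q| := by
    have e2 : P * W * ((S * M - p * (r ^ 2 * (S * q / k ^ 2) + 2 * p * S)) / M ^ 2) =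
        P * W * (S * (r ^ 2 * k ^ 2 - p ^ 2) / M ^ 2) -
          P * W * (r ^ 2 * (S / k ^ 2) * q / M * (p / M)) := by
      rw [hM]; field_simp; ring
    rw [e2]
    have h1 : -(P * W * (S * (r ^ 2 * k ^ 2 - p ^ 2) / M ^ 2)) ≤ W * (r ^ 2 * k ^ 2 / M) := by
      refine (neg_le_abs _).trans ?_
      rw [abs_mul, abs_mul, abs_of_nonneg W0, abs_div, abs_mul, abs_of_pos (by positivity : 0 < M ^ 2)]
      have h2 : |r ^ 2 * k ^ 2 - p ^ 2| ≤ M := by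
        rw [hM, abs_le]; constructor <;> nlinarith [sq_nonneg p, sq_nonneg (r * k)]
      have h3 : |S| * |r ^ 2 * k ^ 2 - p ^ 2| / M ^ 2 ≤ k ^ 2 / M := by
        rw [div_le_div_iff₀ (by positivity) M0]
        calc |S| * |r ^ 2 * k ^ 2 - p ^ 2| * M ≤ k ^ 2 * M * M :=
              mul_le_mul_of_nonneg_right (mul_le_mul hS h2 (abs_nonneg _) (by positivity)) M0.le
          _ = k ^ 2 * M ^ 2 := by ring
      calc |P| * W * (|S| * |r ^ 2 * k ^ 2 - p ^ 2| / M ^ 2) ≤ r ^ 2 * W * (k ^ 2 / M) :=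
            mul_le_mul (mul_le_mul_of_nonneg_right hP W0) h3 (by positivity) (by positivity)
        _ = W * (r ^ 2 * k ^ 2 / M) := by ring
    have h2 : P * W * (r ^ 2 * (S / k ^ 2) * q / M * (p / M)) ≤ 22 / 25 * r * |q| := by
      refine (le_abs_self _).trans ?_
      rw [abs_mul, abs_mul, abs_of_nonneg W0, abs_mul, abs_div, abs_mul, abs_mul,
        abs_of_pos (by positivity : 0 < r ^ 2), abs_of_pos M0, abs_div,
        abs_of_pos (by positivity : 0 < k ^ 2)]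
      have h3 : |S| / k ^ 2 ≤ 1 := by rw [div_le_one (by positivity)]; exact hS
      have h4 : r ^ 2 * (|S| / k ^ 2) * |q| / M ≤ |q| / k ^ 2 := by
        rw [div_le_div_iff₀ M0 (by positivity)]
        calc r ^ 2 * (|S| / k ^ 2) * |q| * k ^ 2 ≤ r ^ 2 * 1 * |q| * k ^ 2 := by
              refine mul_le_mul_of_nonneg_right (mul_le_mul_of_nonneg_right
                (mul_le_mul_of_nonneg_left h3 (by positivity)) (abs_nonneg _)) (by positivity)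
          _ = |q| * (r ^ 2 * k ^ 2) := by ring
          _ ≤ |q| * M := mul_le_mul_of_nonneg_left mM (abs_nonneg _)
      have h5 : W ≤ 44 / 25 * k ^ 3 := by
        refine W1.trans (mul_le_mul_of_nonneg_left ?_ (by norm_num))
        rw [div_le_iff₀ k0, ← sq_abs S]
        calc |S| ^ 2 ≤ (k ^ 2) ^ 2 := pow_le_pow_left₀ (abs_nonneg _) hS 2
          _ = k ^ 3 * k := by ring
      have h6 : |P| * W ≤ r ^ 2 * (44 / 25 * k ^ 3) := mul_le_mul hP h5 W0 (by positivity)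
      have h7 : r ^ 2 * (|S| / k ^ 2) * |q| / M * |p / M| ≤ |q| / k ^ 2 * (1 / (2 * (r * k))) :=
        mul_le_mul h4 Y1 (abs_nonneg _) (by positivity)
      calc |P| * W * (r ^ 2 * (|S| / k ^ 2) * |q| / M * |p / M|) ≤
            r ^ 2 * (44 / 25 * k ^ 3) * (|q| / k ^ 2 * (1 / (2 * (r * k)))) :=
            mul_le_mul h6 h7 (by positivity) (by positivity)
        _ = 22 / 25 * r * |q| := by field_simp; ring
    linarith
  have b3 : W * (r ^ 2 * k ^ 2 / M) ≤ 44 / 25 * r * (S ^ 2 * (r * k) / M) := by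
    calc W * (r ^ 2 * k ^ 2 / M) ≤ 44 / 25 * (S ^ 2 / k) * (r ^ 2 * k ^ 2 / M) :=
          mul_le_mul_of_nonneg_right W1 (by positivity)
      _ = 44 / 25 * r * (S ^ 2 * (r * k) / M) := by field_simp
  linarith

/-- **The inequality along a line for signed functions.** -/
theorem line_signed (hδ : 0 < δ) (hκ : 0 < κ) {h : ℝ} (hh : 0 < h) {P p s r : ℝ → ℝ}
    {q w t G : ℝ} (hP : HasDerivAt P (G * (p t / h)) t)
    (hp : HasDerivAt p (s t / h) t) (hs : HasDerivAt s (q / h) t) (hr : HasDerivAt r (w / h) t)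
    (hPδ : |P t| ≤ δ) (G1 : |G| ≤ 1) :
    ∃ d, HasDerivAt (fun x => Phi δ κ (P x) (p x) (s x) (r x)) d t ∧
      G * Wf κ (s t) (r t) ≤ h * d + √δ * (11 * |q| + 5 / 2 * |w|) := by
  obtain ⟨d1, D1, e1⟩ := part1 hδ hκ hh hp hs
  obtain ⟨W', DW, eW⟩ := Wf_line hκ hh hs hr
  have DE : HasDerivAt (fun x => Ef κ (s x)) (s t / Ef κ (s t) * (q / h)) t := by
    have h1 : HasDerivAt (Ef κ) _ (s t) := Ef_deriv hκ (s t)
    exact h1.comp t hs
  have DM : HasDerivAt (fun x => δ * Ef κ (s x) + p x ^ 2)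
      (δ * (s t / Ef κ (s t) * (q / h)) + 2 * p t * (s t / h)) t := by
    refine ((DE.const_mul δ).fun_add (hp.fun_pow 2)).congr_deriv ?_
    push_cast; ring
  have M0 : δ * Ef κ (s t) + p t ^ 2 ≠ 0 := by
    have := Ef_pos hκ (s t); positivity
  have DY := hp.fun_div DM M0
  have D2 := (hP.fun_mul DW).fun_mul DY
  refine ⟨_, D2.fun_add (D1.const_mul (88 / 25 * √δ)), ?_⟩
  obtain ⟨E, hE⟩ : ∃ E, E = Ef κ (s t) := ⟨_, rfl⟩
  have E0 : 0 < E := by rw [hE]; exact Ef_pos hκ _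
  obtain ⟨ρ, hρ⟩ : ∃ ρ, ρ = √δ := ⟨_, rfl⟩
  obtain ⟨k, hk⟩ : ∃ k, k = √E := ⟨_, rfl⟩
  have ρ0 : 0 < ρ := by rw [hρ]; positivity
  have k0 : 0 < k := by rw [hk]; positivity
  have rr : δ = ρ ^ 2 := by rw [hρ, sq_sqrt hδ.le]
  have kk : E = k ^ 2 := by rw [hk, sq_sqrt E0.le]
  have eη : et δ κ (s t) = ρ * k := by unfold et; rw [← hE, sqrt_mul hδ.le, ← hρ, ← hk]
  have hS : |s t| ≤ k ^ 2 := by rw [← kk, hE]; exact abs_le_Ef hκ _
  obtain ⟨W0, W1⟩ := Wf_bd hκ (s t) (r t)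
  rw [← hE, ← hk] at W1 eW
  rw [eη] at e1
  have C := core (p := p t) (q := q) (w := w) (P := P t) (H := h * W') (G := G) ρ0 k0
    (by rw [← rr]; exact hPδ) G1 W0 W1 hS eW
  rw [← hE, ← hρ]
  obtain ⟨M, hM⟩ : ∃ M, M = ρ ^ 2 * k ^ 2 + p t ^ 2 := ⟨_, rfl⟩
  have M1 : δ * E + p t ^ 2 = M := by rw [hM, ← rr, ← kk]
  have Mp : 0 < M := by rw [hM]; positivity
  rw [M1]
  rw [← hM] at C
  obtain ⟨W, hW⟩ : ∃ W, W = Wf κ (s t) (r t) := ⟨_, rfl⟩
  rw [← hW] at C ⊢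
  have key : h * ((G * (p t / h) * W + P t * W') * (p t / M) +
      P t * W * ((s t / h * M - p t * (δ * (s t / E * (q / h)) + 2 * p t * (s t / h))) / M ^ 2) +
      88 / 25 * ρ * d1) =
      (G * p t * W + P t * (h * W')) * (p t / M) +
      P t * W * ((s t * M - p t * (ρ ^ 2 * (s t * q / k ^ 2) + 2 * p t * s t)) / M ^ 2) +
      88 / 25 * ρ * (h * d1) := by
    rw [kk, ← rr]
    field_simp
  have e2 := mul_le_mul_of_nonneg_left e1 (by positivity : 0 ≤ 88 / 25 * ρ)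
  have fin : G * W ≤ h * ((G * (p t / h) * W + P t * W') * (p t / M) +
      P t * W * ((s t / h * M - p t * (δ * (s t / E * (q / h)) + 2 * p t * (s t / h))) / M ^ 2) +
      88 / 25 * ρ * d1) + ρ * (11 * |q| + 5 / 2 * |w|) := by
    rw [key]
    have n1 : 0 ≤ ρ * |q| := by positivity
    linarith
  exact fin

/-- `|Φ| ≤ 9 √δ |s|` -/
lemma Phi_le (hδ : 0 < δ) (hκ : 0 < κ) {P : ℝ} (hP : |P| ≤ δ) (p s r : ℝ) :
    |Phi δ κ P p s r| ≤ 9 * √δ * |s| := by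
  obtain ⟨E, hE⟩ : ∃ E, E = Ef κ s := ⟨_, rfl⟩
  have E0 : 0 < E := by rw [hE]; exact Ef_pos hκ _
  obtain ⟨ρ, hρ⟩ : ∃ ρ, ρ = √δ := ⟨_, rfl⟩
  obtain ⟨k, hk⟩ : ∃ k, k = √E := ⟨_, rfl⟩
  have ρ0 : 0 < ρ := by rw [hρ]; positivity
  have k0 : 0 < k := by rw [hk]; positivity
  have rr : δ = ρ ^ 2 := by rw [hρ, sq_sqrt hδ.le]
  have kk : E = k ^ 2 := by rw [hk, sq_sqrt E0.le]
  have hS : |s| ≤ k ^ 2 := by rw [← kk, hE]; exact abs_le_Ef hκ _
  obtain ⟨W0, W1⟩ := Wf_bd hκ s r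
  rw [← hE, ← hk] at W1
  have a1 : |P * Wf κ s r * (p / (δ * Ef κ s + p ^ 2))| ≤ 22 / 25 * ρ * |s| := by
    rw [← hE, rr, kk, abs_mul, abs_mul, abs_of_nonneg W0]
    have M0 : 0 < ρ ^ 2 * k ^ 2 + p ^ 2 := by positivity
    have Y1 : |p / (ρ ^ 2 * k ^ 2 + p ^ 2)| ≤ 1 / (2 * (ρ * k)) := by
      rw [abs_div, abs_of_pos M0, div_le_div_iff₀ M0 (by positivity), ← sq_abs p]
      nlinarith [sq_nonneg (ρ * k - |p|)]
    have h1 : |P| * Wf κ s r ≤ ρ ^ 2 * (44 / 25 * (s ^ 2 / k)) :=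
      mul_le_mul (by rw [← rr]; exact hP) W1 W0 (by positivity)
    calc |P| * Wf κ s r * |p / (ρ ^ 2 * k ^ 2 + p ^ 2)| ≤
          ρ ^ 2 * (44 / 25 * (s ^ 2 / k)) * (1 / (2 * (ρ * k))) :=
          mul_le_mul h1 Y1 (abs_nonneg _) (by positivity)
      _ = 22 / 25 * ρ * (s ^ 2 / k ^ 2) := by field_simp; ring
      _ ≤ 22 / 25 * ρ * |s| := by
          refine mul_le_mul_of_nonneg_left ?_ (by positivity)
          rw [div_le_iff₀ (by positivity), ← sq_abs s, sq]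
          exact mul_le_mul_of_nonneg_left hS (abs_nonneg _)
  have a3 : |88 / 25 * √δ * (s * arctan (p / et δ κ s))| ≤ 176 / 25 * ρ * |s| := by
    rw [← hρ, abs_mul, abs_mul s, abs_of_pos (by positivity : 0 < 88 / 25 * ρ)]
    have h1 : |arctan (p / et δ κ s)| ≤ 2 := by
      rw [abs_le]
      have := pi_lt_d2
      constructor
      · linarith [neg_pi_div_two_lt_arctan (p / et δ κ s)]
      · linarith [arctan_lt_pi_div_two (p / et δ κ s)]
    have h2 : |s| * |arctan (p / et δ κ s)| ≤ |s| * 2 := mul_le_mul_of_nonneg_left h1 (abs_nonneg _)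
    have h3 := mul_le_mul_of_nonneg_left h2 (by positivity : 0 ≤ 88 / 25 * ρ)
    linarith
  unfold Phi
  have b1 := abs_add_le (P * Wf κ s r * (p / (δ * Ef κ s + p ^ 2)))
    (88 / 25 * √δ * (s * arctan (p / et δ κ s)))
  rw [← hρ] at a3 b1 ⊢
  have : 0 ≤ ρ * |s| := by positivity
  linarith

/-- comparison of the weights: `W(s, r) + W(r, s)` is `|s + r|^(3/2)` up to a small error -/
lemma Wf_sum (hκ : 0 < κ) (s r : ℝ) :
    |(|s + r| * √|s + r|) - (Wf κ s r + Wf κ r s)| ≤ 3 * (κ * √κ) := by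
  obtain ⟨x, hx⟩ : ∃ x, x = s + r := ⟨_, rfl⟩
  have D0 := Df_pos hκ s r
  obtain ⟨D, hD⟩ : ∃ D, D = Df κ s r := ⟨_, rfl⟩
  have D1 : D = s ^ 2 + r ^ 2 + κ ^ 2 := by rw [hD]; rfl
  have D2 : Df κ r s = D := by rw [D1]; unfold Df; ring
  rw [← hD] at D0
  have E0 := Ef_pos hκ x
  have e1 : Wf κ s r + Wf κ r s = af κ x - af κ x * (κ ^ 2 / D) := by
    unfold Wf
    rw [D2, ← hD, add_comm r s, ← hx]
    have : κ ^ 2 = D - s ^ 2 - r ^ 2 := by rw [D1]; ring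
    rw [this]; field_simp; ring
  have a1 := weight_le hκ x
  have a2 : af κ x ≤ |x| * √|x| := by
    unfold af
    obtain ⟨y, hy⟩ : ∃ y, y = |x| := ⟨_, rfl⟩
    have y0 : 0 ≤ y := by rw [hy]; exact abs_nonneg _
    have Ey : y ≤ Ef κ x := by rw [hy]; exact abs_le_Ef hκ _
    have sE : 0 < √(Ef κ x) := sqrt_pos.2 E0
    have sy : √y ≤ √(Ef κ x) := sqrt_le_sqrt Ey
    rw [← sq_abs x, ← hy, div_le_iff₀ sE]
    calc y ^ 2 = y * (√y * √y) := by rw [mul_self_sqrt y0]; ring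
      _ ≤ y * (√y * √(Ef κ x)) :=
          mul_le_mul_of_nonneg_left (mul_le_mul_of_nonneg_left sy (sqrt_nonneg _)) y0
      _ = y * √y * √(Ef κ x) := by ring
  have af0 : 0 ≤ af κ x := by unfold af; positivity
  have a3 : af κ x * (κ ^ 2 / D) ≤ 2 * (κ * √κ) := by
    unfold af
    have sE : 0 < √(Ef κ x) := sqrt_pos.2 E0
    have sκ : 0 < √κ := sqrt_pos.2 hκ
    have k1 : √κ ≤ √(Ef κ x) := sqrt_le_sqrt (Ef_ge hκ _)
    have k2 : x ^ 2 ≤ 2 * D := by rw [hx, D1]; nlinarith [sq_nonneg (s - r), sq_nonneg κ]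
    have k3 : x ^ 2 / √(Ef κ x) ≤ 2 * D / √κ := by
      rw [div_le_div_iff₀ sE sκ]
      exact mul_le_mul k2 k1 sκ.le (by positivity)
    calc x ^ 2 / √(Ef κ x) * (κ ^ 2 / D) ≤ 2 * D / √κ * (κ ^ 2 / D) :=
          mul_le_mul_of_nonneg_right k3 (by positivity)
      _ = 2 * (κ * (κ / √κ)) := by field_simp
      _ = 2 * (κ * √κ) := by rw [div_sqrt]
  have a4 : 0 ≤ af κ x * (κ ^ 2 / D) := by positivity
  have kk0 : 0 ≤ κ * √κ := by positivity
  rw [← hx, e1, abs_le]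
  have a5 : |x| * √|x| ≤ af κ x + κ * √κ := a1
  constructor <;> linarith

end

end Pool.Agent.Helper99.HD
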