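import Pool.Graph.R_pool_sql_team_seeded_b677cdb8.E8helper19.LW.Univ
import Pool.Agent.Helper99.HD.Line

/-!
The planar inequality for signed functions, in one direction.
-/

set_option autoImplicit false
open MeasureTheory Filter Topology Complex
open scoped ContDiff ENNReal

namespace Pool.Agent.Helper99.HD

open Pool.Agent.W745.RW Pool.Agent.TH294.RS Pool.Agent.TH294.RG Pool.Agent.TH421.DF
open Pool.Agent.TH421.AC Pool.Agent.Y139.PD Pool.Agent.E8helper19.LW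

noncomputable section

variable {B : Set ℂ}

lemma Wf_smooth {κ : ℝ} (hκ : 0 < κ) {s r : ℂ → ℝ} (hs : ContDiffOn ℝ ∞ s B)
    (hr : ContDiffOn ℝ ∞ r B) : ContDiffOn ℝ ∞ (fun z => Wf κ (s z) (r z)) B := by
  have e1 := Ef_smooth hκ (hs.add hr)
  have e2 : ContDiffOn ℝ ∞ (fun z => √(Ef κ (s z + r z))) B :=
    e1.sqrt fun z _ => (Ef_pos hκ _).ne'
  have e3 : ContDiffOn ℝ ∞ (fun z => af κ (s z + r z)) B := by
    unfold af
    exact ((hs.add hr).pow 2).div e2 fun z _ => (Real.sqrt_pos.2 (Ef_pos hκ _)).ne'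
  have e4 : ContDiffOn ℝ ∞ (fun z => Df κ (s z) (r z)) B := by
    unfold Df
    exact ((hs.pow 2).add (hr.pow 2)).add contDiffOn_const
  unfold Wf
  exact e3.mul ((hs.pow 2).div e4 fun z _ => (Df_pos hκ _ _).ne')

lemma Phi_smooth {δ κ : ℝ} (hδ : 0 < δ) (hκ : 0 < κ) {P p s r : ℂ → ℝ} (hP : ContDiffOn ℝ ∞ P B)
    (hp : ContDiffOn ℝ ∞ p B) (hs : ContDiffOn ℝ ∞ s B) (hr : ContDiffOn ℝ ∞ r B) :
    ContDiffOn ℝ ∞ (fun z => Phi δ κ (P z) (p z) (s z) (r z)) B := by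
  have e1 := Ef_smooth hκ hs
  have e5 : ContDiffOn ℝ ∞ (fun z => et δ κ (s z)) B := by
    unfold et
    exact (contDiffOn_const.mul e1).sqrt fun z _ => (mul_pos hδ (Ef_pos hκ _)).ne'
  have e6 : ContDiffOn ℝ ∞ (fun z => Real.arctan (p z / et δ κ (s z))) B :=
    Real.contDiff_arctan.comp_contDiffOn (hp.div e5 fun z _ => (et_pos hδ hκ _).ne')
  have e7 : ContDiffOn ℝ ∞ (fun z => p z / (δ * Ef κ (s z) + p z ^ 2)) B :=
    hp.div ((contDiffOn_const.mul e1).add (hp.pow 2)) fun z _ => by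
      have := Ef_pos hκ (s z); positivity
  unfold Phi
  exact ((hP.mul (Wf_smooth hκ hs hr)).mul e7).add (contDiffOn_const.mul (hs.mul e6))

/-- the pointwise inequality in the plane -/
lemma plane_pt_sg {δ κ : ℝ} (hδ : 0 < δ) (hκ : 0 < κ) (hB : IsOpen B) {h : ℝ} (hp : 0 < h)
    {u r : ℂ → ℝ} (hu : ContDiffOn ℝ ∞ u B) (hr : ContDiffOn ℝ ∞ r B) (v : ℂ) {g : ℝ → ℝ}
    (hg : ContDiff ℝ ∞ g) (g1 : ∀ x, |g x| ≤ 1) (hP : ∀ x, |Pr g x| ≤ δ) {z : ℂ} (hz : z ∈ B) :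
    g (u z) * Wf κ (d h v (d h v u) z) (r z) ≤
      h * fderiv ℝ (fun z => Phi δ κ (Pr g (u z)) (d h v u z) (d h v (d h v u) z) (r z)) z v +
      √δ * (11 * |d h v (d h v (d h v u)) z| + 5 / 2 * |d h v r z|) := by
  have s1 := d_sm hB hu h v
  have s2 := d_sm hB s1 h v
  have l0 := line (v := v) (rdA hB hu hz)
  have l1 := line (v := v) (rdA hB s1 hz)
  have l2 := line (v := v) (rdA hB s2 hz)
  have l3 := line (v := v) (rdA hB hr hz)
  have sP : ContDiffOn ℝ ∞ (fun z => Pr g (u z)) B := (Pr_sm hg).comp_contDiffOn hu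
  have lP : HasDerivAt (fun τ : ℝ => Pr g (u (z + (τ : ℂ) * v)))
      (g (u z) * fderiv ℝ u z v) 0 := by
    have h1 : HasDerivAt (Pr g) (g (u z)) (u (z + ((0 : ℝ) : ℂ) * v)) := by
      have := Pr_d hg (u z)
      simpa using this
    exact h1.comp 0 l0
  have lF := line (v := v) (rdA hB (Phi_smooth hδ hκ sP s1 s2 hr) hz)
  have a0 : fderiv ℝ u z v = d h v u (z + ((0 : ℝ) : ℂ) * v) / h := by
    simp only [ofReal_zero, zero_mul, add_zero, d]; field_simp
  have a1 : fderiv ℝ (d h v u) z v = d h v (d h v u) (z + ((0 : ℝ) : ℂ) * v) / h := by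
    simp only [ofReal_zero, zero_mul, add_zero]; conv_rhs => rw [d]
    field_simp
  have a2 : fderiv ℝ (d h v (d h v u)) z v = d h v (d h v (d h v u)) z / h := by
    conv_rhs => rw [d]
    field_simp
  have a3 : fderiv ℝ r z v = d h v r z / h := by
    conv_rhs => rw [d]
    field_simp
  rw [a0] at lP
  rw [a1] at l1
  rw [a2] at l2
  rw [a3] at l3
  obtain ⟨d', D, e⟩ := line_signed (P := fun τ : ℝ => Pr g (u (z + (τ : ℂ) * v)))
    (p := fun τ : ℝ => d h v u (z + (τ : ℂ) * v))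
    (s := fun τ : ℝ => d h v (d h v u) (z + (τ : ℂ) * v))
    (r := fun τ : ℝ => r (z + (τ : ℂ) * v)) (G := g (u z))
    (q := d h v (d h v (d h v u)) z) (w := d h v r z) (t := 0) hδ hκ hp lP l1 l2 l3 (hP _) (g1 _)
  have ed : d' = fderiv ℝ (fun z => Phi δ κ (Pr g (u z)) (d h v u z)
      (d h v (d h v u) z) (r z)) z v := D.unique lF
  rw [ed] at e
  simp only [ofReal_zero, zero_mul, add_zero] at e
  exact e

/-- **One direction.** -/
theorem dir_sg (hB : IsOpen B) {h : ℝ} (hp : 0 < h) {u r : ℂ → ℝ} (su : ContDiffOn ℝ ∞ u B)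
    (sr : ContDiffOn ℝ ∞ r B) {φ : ℂ → ℝ} (hφ : TF B φ) (hφ0 : ∀ z, 0 ≤ φ z) (v : ℂ) {g : ℝ → ℝ}
    {δ : ℝ} (hg : ContDiff ℝ ∞ g) (g1 : ∀ x, |g x| ≤ 1) (hδ : 0 < δ)
    (hPδ : ∀ x, |Pr g x| ≤ δ) {κ : ℝ} (hκ : 0 < κ) :
    ∫ z, φ z * (g (u z) * Wf κ (d h v (d h v u) z) (r z)) ≤
      √δ * ((∫ z, φ z * (11 * |d h v (d h v (d h v u)) z| + 5 / 2 * |d h v r z|)) +
        h * (9 * ∫ z, |fderiv ℝ φ z v * d h v (d h v u) z|)) := by
  obtain ⟨S, hS⟩ : ∃ S : Set ℂ, S = tsupport φ := ⟨_, rfl⟩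
  have hSc : IsCompact S := by rw [hS]; exact hφ.2.1
  have hSB : S ⊆ B := by rw [hS]; exact hφ.2.2
  have z0 : ∀ z, z ∉ S → φ z = 0 := fun z hz => image_eq_zero_of_notMem_tsupport (by rwa [hS] at hz)
  have z1 : ∀ z, z ∉ S → fderiv ℝ φ z v = 0 := fun z hz => by
    rw [fderiv_of_notMem_tsupport ℝ (by rwa [hS] at hz)]; rfl
  have cφ : Continuous φ := hφ.1.continuous
  have cφ' : Continuous (fun z => fderiv ℝ φ z v) :=
    ((hφ.1.fderiv_right (m := ∞) le_rfl).clm_apply contDiff_const).continuous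
  have s1 := d_sm hB su h v
  have s2 := d_sm hB s1 h v
  have s3 := d_sm hB s2 h v
  have r1 := d_sm hB sr h v
  have r0 : 0 < √δ := Real.sqrt_pos.2 hδ
  obtain ⟨s, hs⟩ : ∃ s : ℂ → ℝ, s = d h v (d h v u) := ⟨_, rfl⟩
  obtain ⟨q, hq⟩ : ∃ q : ℂ → ℝ, q = fun z => 11 * |d h v (d h v (d h v u)) z| +
    5 / 2 * |d h v r z| := ⟨_, rfl⟩
  have cs : ContinuousOn s S := by rw [hs]; exact s2.continuousOn.mono hSB
  have cq : ContinuousOn q S := by
    rw [hq]
    exact (continuousOn_const.mul (s3.continuousOn.mono hSB).abs).add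
      (continuousOn_const.mul (r1.continuousOn.mono hSB).abs)
  have cu : ContinuousOn u S := su.continuousOn.mono hSB
  have cg : ContinuousOn (fun z => g (u z)) S := hg.continuous.comp_continuousOn cu
  have cW : ContinuousOn (fun z => Wf κ (s z) (r z)) S := by
    rw [hs]; exact (Wf_smooth hκ s2 sr).continuousOn.mono hSB
  have iq : Integrable (fun z => φ z * q z) :=
    rint hSc (cφ.continuousOn.mul cq) fun z hz => by rw [z0 z hz, zero_mul]
  have is' : Integrable (fun z => |fderiv ℝ φ z v * s z|) :=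
    rint hSc (cφ'.continuousOn.mul cs).abs fun z hz => by rw [z1 z hz]; simp
  have iL : Integrable (fun z => φ z * (g (u z) * Wf κ (s z) (r z))) :=
    rint hSc (cφ.continuousOn.mul (cg.mul cW)) fun z hz => by rw [z0 z hz, zero_mul]
  obtain ⟨F, hF⟩ : ∃ F : ℂ → ℝ, F = fun z => Phi δ κ (Pr g (u z)) (d h v u z)
    (d h v (d h v u) z) (r z) := ⟨_, rfl⟩
  have sP : ContDiffOn ℝ ∞ (fun z => Pr g (u z)) B := (Pr_sm hg).comp_contDiffOn su
  have sF : ContDiffOn ℝ ∞ F B := by rw [hF]; exact Phi_smooth hδ hκ sP s1 s2 sr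
  have Fle : ∀ z, |F z| ≤ 9 * √δ * |s z| := fun z => by
    rw [hF, hs]; exact Phi_le hδ hκ (hPδ _) _ _ _
  obtain ⟨U, hU⟩ : ∃ U : ℂ → ℝ, U = fun z => φ z * F z := ⟨_, rfl⟩
  have sU : ContDiffOn ℝ ∞ U B := by rw [hU]; exact hφ.1.contDiffOn.mul sF
  have zU : ∀ z, z ∉ S → U z = 0 := fun z hz => by
    rw [hU]; show φ z * _ = 0; rw [z0 z hz, zero_mul]
  have nhU : ∀ z, z ∉ S → U =ᶠ[𝓝 z] fun _ => 0 := by
    intro z hz
    filter_upwards [hSc.isClosed.isOpen_compl.mem_nhds (hz : z ∈ Sᶜ)] with w hw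
    exact zU w hw
  have gU : ContDiff ℝ ∞ U := by
    refine contDiff_iff_contDiffAt.2 fun w => ?_
    by_cases hw : w ∈ B
    · exact sU.contDiffAt (hB.mem_nhds hw)
    · exact contDiffAt_const.congr_of_eventuallyEq (nhU w fun h => hw (hSB h))
  obtain ⟨iU, jU⟩ := Pool.Agent.W366.RW.int_zero U gU (HasCompactSupport.intro hSc zU) v
  have pt : ∀ z, φ z * (g (u z) * Wf κ (s z) (r z)) ≤ h * fderiv ℝ U z v +
      h * (9 * √δ) * |fderiv ℝ φ z v * s z| + √δ * (φ z * q z) := by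
    intro z
    by_cases hz : z ∈ B
    · have e1 := plane_pt_sg hδ hκ hB hp su sr v hg g1 hPδ hz
      have e2 := mul_le_mul_of_nonneg_left e1 (hφ0 z)
      have d1 : HasFDerivAt φ (fderiv ℝ φ z) z :=
        (hφ.1.differentiable (by simp) z).hasFDerivAt
      have d2 : HasFDerivAt F (fderiv ℝ F z) z := (rdA hB sF hz).hasFDerivAt
      have e3 : fderiv ℝ U z v = φ z * fderiv ℝ F z v + F z * fderiv ℝ φ z v := by
        rw [hU]
        have e3 := congrArg (fun L : ℂ →L[ℝ] ℝ => L v) (d1.mul d2).fderiv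
        refine Eq.trans e3 ?_
        simp only [add_apply, smul_apply, smul_eq_mul]
      rw [← hF] at e2
      have e5 : -(h * (F z * fderiv ℝ φ z v)) ≤ h * (9 * √δ) * |fderiv ℝ φ z v * s z| := by
        refine (neg_le_abs _).trans ?_
        rw [abs_mul, abs_of_pos hp, abs_mul, abs_mul]
        have t1 : |F z| * |fderiv ℝ φ z v| ≤ 9 * √δ * |s z| * |fderiv ℝ φ z v| :=
          mul_le_mul_of_nonneg_right (Fle z) (abs_nonneg _)
        have t2 := mul_le_mul_of_nonneg_left t1 hp.le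
        linarith
      have eq' : q z = 11 * |d h v (d h v (d h v u)) z| + 5 / 2 * |d h v r z| := by rw [hq]
      have es : s z = d h v (d h v u) z := by rw [hs]
      rw [← eq', ← es] at e2
      rw [e3]
      linarith
    · have hzS : z ∉ S := fun h => hz (hSB h)
      rw [z0 z hzS, z1 z hzS, (nhU z hzS).fderiv_eq]; simp
  have k1 : Integrable (fun z => h * fderiv ℝ U z v) := iU.const_mul _
  have k2 : Integrable (fun z => h * (9 * √δ) * |fderiv ℝ φ z v * s z|) := is'.const_mul _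
  have k3 : Integrable (fun z => √δ * (φ z * q z)) := iq.const_mul _
  have k12 : Integrable (fun z => h * fderiv ℝ U z v + h * (9 * √δ) * |fderiv ℝ φ z v * s z|) :=
    k1.add k2
  have k : Integrable (fun z => h * fderiv ℝ U z v + h * (9 * √δ) * |fderiv ℝ φ z v * s z| +
    √δ * (φ z * q z)) := k12.add k3
  have fin : ∫ z, φ z * (g (u z) * Wf κ (s z) (r z)) ≤
      √δ * ((∫ z, φ z * q z) + h * (9 * ∫ z, |fderiv ℝ φ z v * s z|)) := by
    refine (integral_mono iL k pt).trans (le_of_eq ?_)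
    rw [integral_add k12 k3, integral_add k1 k2, integral_const_mul, integral_const_mul,
      integral_const_mul, jU, mul_zero, zero_add]
    ring
  rw [hs, hq] at fin
  exact fin

end

end Pool.Agent.Helper99.HD
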