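import Pool.Agent.Helper99.HD.Dir

/-!
The energy inequality for all third derivatives (after helper19's `L3v` of the library).
-/

set_option autoImplicit false
open MeasureTheory Filter Topology Complex
open scoped ContDiff ENNReal

namespace Pool.Agent.Helper99.HD

open Pool.Agent.W745.RW Pool.Agent.TH294.RS Pool.Agent.TH294.RG Pool.Agent.TH421.DF
open Pool.Agent.TH421.AC Pool.Agent.Y139.PD Pool.Agent.E8helper19.LW

noncomputable section

variable {B : Set ℂ}

/-- **The energy inequality for the third derivatives.** -/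
theorem L3b (hB : IsOpen B) {ψ ρ : ℂ → ℝ} (hψ : TF B ψ) (hψ0 : ∀ z, 0 ≤ ψ z)
    (hρ : ContDiffOn ℝ ∞ ρ B) {v : ℂ} (hv : v = 1 ∨ v = I) :
    ∃ K : ℝ, 0 ≤ K ∧ ∀ (h : ℝ) (u : ℂ → ℝ), Sol B h ρ u → h ≤ 1 →
      ∫ z, ψ z * (d h 1 (d h v (d h v u)) z ^ 2 + d h I (d h v (d h v u)) z ^ 2) ≤
        (∫ z, ψ z * (ρ z * d h v (d h v u) z ^ 2)) + h * K * ∫ z in tsupport ψ, e3 h u z := by
  obtain ⟨S, hS⟩ : ∃ S : Set ℂ, S = tsupport ψ := ⟨_, rfl⟩
  have hSc : IsCompact S := by rw [hS]; exact hψ.2.1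
  have hSB : S ⊆ B := by rw [hS]; exact hψ.2.2
  have z0 : ∀ z, z ∉ S → ψ z = 0 := fun z hz => image_eq_zero_of_notMem_tsupport (by rwa [hS] at hz)
  have z1 : ∀ h v z, z ∉ S → d h v ψ z = 0 := fun h v z hz => by
    unfold d
    rw [fderiv_of_notMem_tsupport ℝ (by rwa [hS] at hz)]
    simp
  have cψ : Continuous ψ := hψ.1.continuous
  have cψ' : ∀ v : ℂ, Continuous (fun z => fderiv ℝ ψ z v) := fun v =>
    ((hψ.1.fderiv_right (m := ∞) le_rfl).clm_apply contDiff_const).continuous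
  have sρ1 : ContDiffOn ℝ ∞ (fun z => fderiv ℝ ρ z v) B := rsd hB hρ v
  have sρ2 : ContDiffOn ℝ ∞ (fun z => fderiv ℝ (fun w => fderiv ℝ ρ w v) z v) B := rsd hB sρ1 v
  obtain ⟨M, M1, hM⟩ := bds hSc [fun z => fderiv ℝ ψ z 1, fun z => fderiv ℝ ψ z I, ψ,
    fun z => fderiv ℝ ρ z v, fun z => fderiv ℝ (fun w => fderiv ℝ ρ w v) z v] (by
    simp only [List.mem_cons, List.not_mem_nil, or_false, forall_eq_or_imp, forall_eq]
    exact ⟨(cψ' 1).continuousOn, (cψ' I).continuousOn, cψ.continuousOn,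
      sρ1.continuousOn.mono hSB, sρ2.continuousOn.mono hSB⟩)
  simp only [List.mem_cons, List.not_mem_nil, or_false, forall_eq_or_imp, forall_eq] at hM
  refine ⟨4 * M ^ 2, by positivity, fun h u hu h1 => ?_⟩
  have hp := hu.hp
  have s0 := hu.su
  have s1 := d_sm hB s0 h v
  have s2 := d_sm hB s1 h v
  have s3 : ∀ w, ContDiffOn ℝ ∞ (d h w (d h v (d h v u))) B := fun w => d_sm hB s2 h w
  obtain ⟨t1, t2⟩ := T_int hB hψ (s2.mul (s3 1)) h 1
  obtain ⟨t3, t4⟩ := T_int hB hψ (s2.mul (s3 I)) h I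
  obtain ⟨iE, eE⟩ := ind_int hSc ((e3_co (h := h) hB s0).mono hSB)
  have iA : Integrable (fun z => ψ z * (d h 1 (d h v (d h v u)) z ^ 2 +
      d h I (d h v (d h v u)) z ^ 2)) :=
    rint hSc (cψ.continuousOn.mul ((((s3 1).continuousOn.mono hSB).pow 2).add
      (((s3 I).continuousOn.mono hSB).pow 2))) fun z hz => by
      rw [z0 z hz, zero_mul]
  have iR : Integrable (fun z => ψ z * (ρ z * d h v (d h v u) z ^ 2)) :=
    rint hSc (cψ.continuousOn.mul ((hρ.continuousOn.mono hSB).mul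
      ((s2.continuousOn.mono hSB).pow 2))) fun z hz => by rw [z0 z hz, zero_mul]
  rw [← hS, ← eE]
  refine mono3 (a := 1) (b := 1) iA iR t1 t3 iE t2 t4 fun z => ?_
  by_cases hzS : z ∈ S
  · have hz := hSB hzS
    obtain ⟨m1, m2, m3, m4, m5⟩ := hM
    have n1 := absd (h := h) hp (m1 z hzS)
    have n2 := absd (h := h) hp (m2 z hzS)
    have n4 := absd (h := h) hp (m4 z hzS)
    have n3 := m3 z hzS
    have n5 : |d h v (d h v ρ) z| ≤ h * M := by
      have e : d h v (d h v ρ) z = h * (h * fderiv ℝ (fun w => fderiv ℝ ρ w v) z v) := by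
        show h * fderiv ℝ (fun w => h * fderiv ℝ ρ w v) z v = _
        rw [fderiv_const_mul (rdA hB sρ1 hz)]
        simp only [smul_apply, smul_eq_mul]
      rw [e, abs_mul, abs_mul, abs_of_pos hp]
      have h5 := m5 z hzS
      refine mul_le_mul_of_nonneg_left ?_ hp.le
      calc h * |fderiv ℝ (fun w => fderiv ℝ ρ w v) z v| ≤ 1 * M :=
            mul_le_mul h1 h5 (abs_nonneg _) zero_le_one
        _ = M := one_mul M
    have f1 := d_mul (rdA hB s2 hz) (rdA hB (s3 1) hz) h 1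
    have f2 := d_mul (rdA hB s2 hz) (rdA hB (s3 I) hz) h I
    have q := eq_two hB hρ hu hv hz
    have ge := e3_ge h u hv z
    rw [Set.indicator_of_mem hzS]
    unfold T
    rw [f1, f2]
    beta_reduce
    have hK : 0 ≤ h * (4 * M ^ 2) := by positivity
    refine le_trans ?_ (add_le_add_right (mul_le_mul_of_nonneg_left ge hK) _)
    generalize d h 1 (d h 1 (d h v (d h v u))) z = Y1 at *
    generalize d h I (d h I (d h v (d h v u))) z = Y2 at *
    generalize d h 1 (d h v (d h v u)) z = W1 at *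
    generalize d h I (d h v (d h v u)) z = W2 at *
    generalize d h v (d h v u) z = V at *
    generalize d h v u z = P at *
    generalize u z = U at *
    generalize d h v (d h v ρ) z = r2 at *
    generalize d h v ρ z = r1 at *
    generalize d h 1 ψ z = a1 at *
    generalize d h I ψ z = a2 at *
    generalize hf : ψ z = f at *
    have f0 : 0 ≤ f := by rw [← hf]; exact hψ0 z
    have hM0 : 0 ≤ h * M := by positivity
    have two : ∀ x y : ℝ, |x * y| ≤ (x ^ 2 + y ^ 2) / 2 := fun x y => by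
      rw [abs_mul, ← sq_abs x, ← sq_abs y]
      nlinarith [sq_nonneg (|x| - |y|)]
    have A1 : |a1 * (V * W1)| ≤ (h * M) * ((V ^ 2 + W1 ^ 2) / 2) := by
      rw [abs_mul]
      exact mul_le_mul n1 (two _ _) (abs_nonneg _) hM0
    have A2 : |a2 * (V * W2)| ≤ (h * M) * ((V ^ 2 + W2 ^ 2) / 2) := by
      rw [abs_mul]
      exact mul_le_mul n2 (two _ _) (abs_nonneg _) hM0
    have fr1 : |f * r1| ≤ h * M ^ 2 := by
      rw [abs_mul]
      calc |f| * |r1| ≤ M * (h * M) := mul_le_mul n3 n4 (abs_nonneg _) (by positivity)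
        _ = h * M ^ 2 := by ring
    have fr2 : |f * r2| ≤ h * M ^ 2 := by
      rw [abs_mul]
      calc |f| * |r2| ≤ M * (h * M) := mul_le_mul n3 n5 (abs_nonneg _) (by positivity)
        _ = h * M ^ 2 := by ring
    have A3 : |(f * r1) * (V * P)| ≤ (h * M ^ 2) * ((V ^ 2 + P ^ 2) / 2) := by
      rw [abs_mul]
      exact mul_le_mul fr1 (two _ _) (abs_nonneg _) (by positivity)
    have A4 : |(f * r2) * (V * U)| ≤ (h * M ^ 2) * ((V ^ 2 + U ^ 2) / 2) := by
      rw [abs_mul]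
      exact mul_le_mul fr2 (two _ _) (abs_nonneg _) (by positivity)
    have A1' := neg_abs_le (a1 * (V * W1))
    have A2' := neg_abs_le (a2 * (V * W2))
    have A3' := le_abs_self ((f * r1) * (V * P))
    have A4' := le_abs_self ((f * r2) * (V * U))
    have MM : h * M ≤ h * M ^ 2 := by
      refine mul_le_mul_of_nonneg_left ?_ hp.le
      nlinarith
    have e1 : f * (W1 ^ 2 + W2 ^ 2) = f * (ρ z * V ^ 2) +
        (f * (W1 * W1 + V * Y1) + a1 * (V * W1)) +
        (f * (W2 * W2 + V * Y2) + a2 * (V * W2)) - a1 * (V * W1) - a2 * (V * W2) +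
        2 * ((f * r1) * (V * P)) + (f * r2) * (V * U) := by
      have y2 : Y2 = -(ρ z * V) - 2 * (r1 * P) - r2 * U - Y1 := by linarith
      rw [y2]; ring
    have B1 : (h * M) * ((V ^ 2 + W1 ^ 2) / 2) ≤ (h * M ^ 2) * ((V ^ 2 + W1 ^ 2) / 2) :=
      mul_le_mul_of_nonneg_right MM (by positivity)
    have B2 : (h * M) * ((V ^ 2 + W2 ^ 2) / 2) ≤ (h * M ^ 2) * ((V ^ 2 + W2 ^ 2) / 2) :=
      mul_le_mul_of_nonneg_right MM (by positivity)
    have B3 : 0 ≤ (h * M ^ 2) * (U ^ 2 * (7 / 2) + P ^ 2 * 3 + V ^ 2 * (3 / 2) +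
        W1 ^ 2 * (7 / 2) + W2 ^ 2 * (7 / 2)) := by positivity
    have e4 : h * (4 * M ^ 2) * (U ^ 2 + P ^ 2 + V ^ 2 + W1 ^ 2 + W2 ^ 2) =
        (h * M ^ 2) * ((V ^ 2 + W1 ^ 2) / 2) + (h * M ^ 2) * ((V ^ 2 + W2 ^ 2) / 2) +
        2 * ((h * M ^ 2) * ((V ^ 2 + P ^ 2) / 2)) + (h * M ^ 2) * ((V ^ 2 + U ^ 2) / 2) +
        (h * M ^ 2) * (U ^ 2 * (7 / 2) + P ^ 2 * 3 + V ^ 2 * (3 / 2) +
        W1 ^ 2 * (7 / 2) + W2 ^ 2 * (7 / 2)) := by ring
    rw [e1, e4]
    linarith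
  · unfold T
    rw [z0 z hzS, z1 h 1 z hzS, z1 h I z hzS, Set.indicator_of_notMem hzS]
    simp

end

end Pool.Agent.Helper99.HD
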