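import Pool.Graph.R_seed8.TH421.AC.Main
import Mathlib

/-!
From test functions to sets, and from sets to densities: translations of finite measures on `ℝ`.
-/

set_option autoImplicit false
open MeasureTheory Filter Topology Complex
open scoped ContDiff ENNReal Manifold

namespace Pool.Agent.Helper99.HD

open Pool.Agent.TH421.AC

noncomputable section

lemma cutR {U K : Set ℝ} (hU : IsOpen U) (hK : IsCompact K) (hKU : K ⊆ U) :
    ∃ g : ℝ → ℝ, ContDiff ℝ ∞ g ∧ HasCompactSupport g ∧ tsupport g ⊆ U ∧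
      (∀ x ∈ K, g x = 1) ∧ (∀ x, 0 ≤ g x) ∧ (∀ x, g x ≤ 1) := by
  obtain ⟨δ, hδ, hδB⟩ := hK.exists_cthickening_subset_open hU hKU
  obtain ⟨f, hf1, hf2, hf3⟩ := exists_contMDiff_support_eq_eq_one_iff (𝓘(ℝ, ℝ))
    (Metric.isOpen_thickening (δ := δ) (E := K)) hK.isClosed
    (Metric.self_subset_thickening hδ K)
  have hs : tsupport f ⊆ Metric.cthickening δ K := by
    apply closure_minimal _ Metric.isClosed_cthickening
    rw [hf3.1]
    exact Metric.thickening_subset_cthickening _ _
  refine ⟨f, hf1.contDiff, ?_, hs.trans hδB, fun x hx => ?_, fun x => ?_, fun x => ?_⟩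
  · exact (hK.cthickening (r := δ)).of_isClosed_subset (isClosed_tsupport f) hs
  · exact (hf3.2 x).1 hx
  · exact (hf2 ⟨x, rfl⟩).1
  · exact (hf2 ⟨x, rfl⟩).2

/-- integrals over an interval of length `|τ|` of a function with values in `[0, 1]` -/
lemma small_int {b : ℝ → ℝ} (cb : Continuous b) (b0 : ∀ x, 0 ≤ b x) (b1 : ∀ x, b x ≤ 1)
    {x y : ℝ} (hxy : x ≤ y) : (0 ≤ ∫ t in x..y, b t) ∧ (∫ t in x..y, b t) ≤ y - x := by
  constructor
  · exact intervalIntegral.integral_nonneg hxy fun t _ => b0 t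
  · have h1 := intervalIntegral.integral_mono_on (μ := volume) hxy
      (cb.intervalIntegrable (μ := volume) x y)
      (intervalIntegrable_const (μ := volume) (c := (1 : ℝ))) (fun t _ => b1 t)
    rw [intervalIntegral.integral_const, smul_eq_mul, mul_one] at h1
    exact h1

/-- the primitive of `b (x + τ) - b x` -/
lemma shift_prim {b : ℝ → ℝ} (cb : Continuous b) (b0 : ∀ x, 0 ≤ b x) (b1 : ∀ x, b x ≤ 1)
    (τ x : ℝ) : |Pr (fun y => b (y + τ) - b y) x| ≤ |τ| := by
  have ii : ∀ x y : ℝ, IntervalIntegrable b volume x y := fun x y => cb.intervalIntegrable x y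
  have e1 : Pr (fun y => b (y + τ) - b y) x = (∫ t in x..(x + τ), b t) - ∫ t in (0 : ℝ)..τ, b t := by
    unfold Pr
    have cs : Continuous fun y => b (y + τ) := cb.comp (continuous_id.add continuous_const)
    rw [intervalIntegral.integral_sub (cs.intervalIntegrable _ _) (ii _ _),
      intervalIntegral.integral_comp_add_right (f := b), zero_add]
    have h1 := intervalIntegral.integral_add_adjacent_intervals (ii 0 τ) (ii τ (x + τ))
    have h2 := intervalIntegral.integral_add_adjacent_intervals (ii 0 x) (ii x (x + τ))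
    linarith
  rw [e1]
  rcases le_total 0 τ with h | h
  · obtain ⟨p1, p2⟩ := small_int cb b0 b1 (by linarith : x ≤ x + τ)
    obtain ⟨p3, p4⟩ := small_int cb b0 b1 h
    rw [abs_of_nonneg h, abs_le]
    constructor <;> linarith
  · obtain ⟨p1, p2⟩ := small_int cb b0 b1 (by linarith : x + τ ≤ x)
    obtain ⟨p3, p4⟩ := small_int cb b0 b1 h
    rw [intervalIntegral.integral_symm (x + τ) x, intervalIntegral.integral_symm τ 0,
      abs_of_nonpos h, abs_le]
    constructor <;> linarith

/-- from test functions to Borel sets -/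
lemma sets_of_tests {μ : Measure ℝ} [IsFiniteMeasure μ] {τ C : ℝ}
    (H : ∀ b : ℝ → ℝ, ContDiff ℝ ∞ b → HasCompactSupport b → (∀ x, 0 ≤ b x) → (∀ x, b x ≤ 1) →
      |(∫ x, b (x + τ) ∂μ) - ∫ x, b x ∂μ| ≤ C) {A : Set ℝ} (mA : MeasurableSet A) :
    |μ.real ((fun x => x + τ) ⁻¹' A) - μ.real A| ≤ C := by
  obtain ⟨κ, hκ⟩ : ∃ κ : Measure ℝ, κ = μ.map (fun x => x + τ) := ⟨_, rfl⟩
  have mt : Measurable (fun x : ℝ => x + τ) := measurable_id.add_const τ
  have fκ : IsFiniteMeasure κ := by rw [hκ]; infer_instance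
  have e1 : μ.real ((fun x => x + τ) ⁻¹' A) = κ.real A := by
    rw [hκ, measureReal_def, measureReal_def, Measure.map_apply mt mA]
  rw [e1]
  refine le_of_forall_pos_le_add fun ε ε0 => ?_
  have ε1 : ENNReal.ofReal (ε / 4) ≠ 0 := by
    rw [Ne, ENNReal.ofReal_eq_zero, not_le]; positivity
  obtain ⟨K, hKA, cK, hK⟩ := mA.exists_isCompact_sdiff_lt (μ := μ + κ) (measure_ne_top _ _) ε1
  obtain ⟨U, hAU, oU, -, hU⟩ := mA.exists_isOpen_sdiff_lt (μ := μ + κ) (measure_ne_top _ _) ε1
  obtain ⟨b, sb, cb, tb, bK, b0, b1⟩ := cutR oU cK (hKA.trans hAU)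
  have Hb := H b sb cb b0 b1
  have ib : ∀ η : Measure ℝ, IsFiniteMeasure η → Integrable b η := fun η _ =>
    sb.continuous.integrable_of_hasCompactSupport cb
  -- for one measure
  have one : ∀ η : Measure ℝ, IsFiniteMeasure η → η ≤ μ + κ →
      |(∫ x, b x ∂η) - η.real A| ≤ ε / 2 := by
    intro η fη hη
    have mK := cK.measurableSet
    have mU := oU.measurableSet
    have u1 : η.real K ≤ ∫ x, b x ∂η := by
      have h1 : η.real K = ∫ x, K.indicator (fun _ => (1 : ℝ)) x ∂η := by
        rw [integral_indicator mK, setIntegral_const, smul_eq_mul, mul_one]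
      rw [h1]
      refine integral_mono ((integrable_const _).indicator mK) (ib η fη) fun x => ?_
      by_cases hx : x ∈ K
      · rw [Set.indicator_of_mem hx, bK x hx]
      · rw [Set.indicator_of_notMem hx]; exact b0 x
    have u2 : ∫ x, b x ∂η ≤ η.real U := by
      have h1 : η.real U = ∫ x, U.indicator (fun _ => (1 : ℝ)) x ∂η := by
        rw [integral_indicator mU, setIntegral_const, smul_eq_mul, mul_one]
      rw [h1]
      refine integral_mono (ib η fη) ((integrable_const _).indicator mU) fun x => ?_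
      by_cases hx : x ∈ U
      · rw [Set.indicator_of_mem hx]; exact b1 x
      · rw [Set.indicator_of_notMem hx, image_eq_zero_of_notMem_tsupport fun h => hx (tb h)]
    have d1 : η.real A - η.real K ≤ ε / 4 := by
      rw [← measureReal_sdiff hKA mK, measureReal_def]
      refine ENNReal.toReal_le_of_le_ofReal (by positivity) ((hη _).trans hK.le)
    have d2 : η.real U - η.real A ≤ ε / 4 := by
      rw [← measureReal_sdiff hAU mA, measureReal_def]
      refine ENNReal.toReal_le_of_le_ofReal (by positivity) ((hη _).trans hU.le)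
    have d3 : η.real K ≤ η.real A := measureReal_mono hKA
    have d4 : η.real A ≤ η.real U := measureReal_mono hAU
    rw [abs_le]
    constructor <;> linarith
  have a1 := one μ inferInstance (Measure.le_add_right le_rfl)
  have a2 := one κ fκ (Measure.le_add_left le_rfl)
  have e2 : ∫ x, b x ∂κ = ∫ x, b (x + τ) ∂μ := by
    rw [hκ, integral_map mt.aemeasurable sb.continuous.aestronglyMeasurable]
  rw [← e2] at Hb
  rw [abs_le] at a1 a2 Hb ⊢
  constructor <;> linarith

/-- from sets to densities: the modulus of continuity in `L¹` and the Fourier transform -/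
lemma dens_of_sets {μ : Measure ℝ} [IsFiniteMeasure μ] (ac : μ ≪ volume) {C : ℝ}
    (H : ∀ A : Set ℝ, MeasurableSet A → ∀ τ : ℝ,
      |μ.real ((fun x => x + τ) ⁻¹' A) - μ.real A| ≤ C * √|τ|) :
    ∃ w : ℝ → ℝ, Measurable w ∧ (∀ x, 0 ≤ w x) ∧ Integrable w ∧
      μ = volume.withDensity (fun x => ENNReal.ofReal (w x)) ∧
      (∀ τ : ℝ, ∫ x, |w (x + τ) - w x| ≤ 2 * C * √|τ|) ∧
      ∀ t : ℝ, t ≠ 0 → ‖∫ x : ℝ, (w x : ℂ) * cexp (I * (t * x))‖ ≤ C * √Real.pi / √|t| := by
  obtain ⟨w, hw⟩ : ∃ w : ℝ → ℝ, w = fun x => (μ.rnDeriv volume x).toReal := ⟨_, rfl⟩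
  have mw : Measurable w := by rw [hw]; exact (Measure.measurable_rnDeriv _ _).ennreal_toReal
  have w0 : ∀ x, 0 ≤ w x := fun x => by rw [hw]; exact ENNReal.toReal_nonneg
  have iw : Integrable w := by rw [hw]; exact Measure.integrable_toReal_rnDeriv
  have ww : μ = volume.withDensity (fun x => ENNReal.ofReal (w x)) := by
    conv_lhs => rw [← Measure.withDensity_rnDeriv_eq μ volume ac]
    refine withDensity_congr_ae ?_
    filter_upwards [Measure.rnDeriv_ne_top μ volume] with x hx
    rw [hw]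
    exact (ENNReal.ofReal_toReal hx).symm
  have real : ∀ A : Set ℝ, MeasurableSet A → μ.real A = ∫ x in A, w x := by
    intro A mA
    conv_lhs => rw [ww]
    rw [measureReal_def, withDensity_apply _ mA,
      ← ofReal_integral_eq_lintegral_ofReal iw.integrableOn (ae_of_all _ w0),
      ENNReal.toReal_ofReal (integral_nonneg w0)]
  have iwt : ∀ τ : ℝ, Integrable (fun x => w (x + τ)) := fun τ => iw.comp_add_right τ
  -- the modulus of continuity
  have mod : ∀ τ : ℝ, ∫ x, |w (x + τ) - w x| ≤ 2 * C * √|τ| := by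
    intro τ
    have set : ∀ A : Set ℝ, MeasurableSet A → |∫ x in A, (w (x + τ) - w x)| ≤ C * √|τ| := by
      intro A mA
      have mt : Measurable (fun x : ℝ => x + -τ) := measurable_id.add_const _
      have h1 := H A mA (-τ)
      rw [abs_neg, real A mA, real _ (mt mA)] at h1
      have h2 : ∫ x in A, w (x + τ) = ∫ y in (fun x => x + -τ) ⁻¹' A, w y := by
        have e1 : A = (fun x => x + τ) ⁻¹' ((fun x => x + -τ) ⁻¹' A) := by
          ext x; simp
        conv_lhs => rw [e1]
        exact (measurePreserving_add_right volume τ).setIntegral_preimage_emb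
          (measurableEmbedding_addRight τ) w _
      rw [integral_sub (iwt τ).integrableOn iw.integrableOn, h2]
      exact h1
    obtain ⟨A, hA⟩ : ∃ A : Set ℝ, A = {x | w x ≤ w (x + τ)} := ⟨_, rfl⟩
    have mA : MeasurableSet A := by
      rw [hA]
      exact measurableSet_le mw (mw.comp (measurable_id.add_const τ))
    have i1 : Integrable (fun x => w (x + τ) - w x) := (iwt τ).sub iw
    have e1 := integral_add_compl mA i1.abs
    have e2 : ∫ x in A, |w (x + τ) - w x| = ∫ x in A, (w (x + τ) - w x) :=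
      setIntegral_congr_fun mA fun x hx => by
        rw [hA] at hx
        have : w x ≤ w (x + τ) := hx
        exact abs_of_nonneg (by linarith)
    have e3 : ∫ x in Aᶜ, |w (x + τ) - w x| = -∫ x in Aᶜ, (w (x + τ) - w x) := by
      rw [← integral_neg]
      refine setIntegral_congr_fun mA.compl fun x hx => ?_
      rw [hA] at hx
      have : ¬ w x ≤ w (x + τ) := hx
      exact abs_of_nonpos (by linarith)
    have h1 := (abs_le.1 (set A mA)).2
    have h2 := (abs_le.1 (set Aᶜ mA.compl)).1
    have e1' : ∫ x, |w (x + τ) - w x| = (∫ x in A, |w (x + τ) - w x|) +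
        ∫ x in Aᶜ, |w (x + τ) - w x| := e1.symm
    rw [e1', e2, e3]
    linarith
  refine ⟨w, mw, w0, iw, ww, mod, fun t ht => ?_⟩
  -- the Fourier transform
  obtain ⟨E, hE⟩ : ∃ E : ℝ → ℂ, E = fun x : ℝ => cexp (I * (t * x)) := ⟨_, rfl⟩
  have cE : Continuous E := by rw [hE]; fun_prop
  have nE : ∀ x, ‖E x‖ = 1 := fun x => by
    have h1 : E x = cexp (((t * x : ℝ) : ℂ) * I) := by rw [hE]; push_cast; congr 1; ring
    rw [h1, Complex.norm_exp_ofReal_mul_I]
  have iwE : ∀ {f : ℝ → ℝ}, Integrable f → Integrable (fun x => (f x : ℂ) * E x) := by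
    intro f hf
    refine (hf.ofReal (𝕜 := ℂ)).mul_bdd (c := 1) cE.aestronglyMeasurable
      (ae_of_all _ fun x => (nE x).le)
  obtain ⟨Z, hZ⟩ : ∃ Z : ℂ, Z = ∫ x : ℝ, (w x : ℂ) * E x := ⟨_, rfl⟩
  have eZ : ∫ x : ℝ, (w x : ℂ) * cexp (I * (t * x)) = Z := by rw [hZ, hE]
  rw [eZ]
  obtain ⟨τ, hτ⟩ : ∃ τ : ℝ, τ = Real.pi / t := ⟨_, rfl⟩
  have tr : ∫ x : ℝ, (w (x + τ) : ℂ) * E x = -Z := by
    have h1 := integral_add_right_eq_self (μ := (volume : Measure ℝ))
      (fun x : ℝ => (w x : ℂ) * E x) τ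
    rw [hZ, ← h1, ← integral_neg]
    congr 1
    funext x
    have h2 : E (x + τ) = -E x := by
      rw [hE]
      beta_reduce
      have h3 : I * ((t : ℂ) * ((x + τ : ℝ) : ℂ)) = I * (t * x) + Real.pi * I := by
        have h4 : (t : ℂ) * (τ : ℂ) = (Real.pi : ℂ) := by
          rw [hτ]
          push_cast
          have : (t : ℂ) ≠ 0 := by exact_mod_cast ht
          field_simp
        push_cast
        linear_combination I * h4
      rw [h3, Complex.exp_add, Complex.exp_pi_mul_I]
      ring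
    rw [h2]; ring
  have two : 2 * Z = ∫ x : ℝ, ((w x - w (x + τ) : ℝ) : ℂ) * E x := by
    have h1 : ∫ x : ℝ, ((w x - w (x + τ) : ℝ) : ℂ) * E x =
        (∫ x : ℝ, (w x : ℂ) * E x) - ∫ x : ℝ, (w (x + τ) : ℂ) * E x := by
      rw [← integral_sub (iwE iw) (iwE (iwt τ))]
      congr 1
      funext x
      push_cast
      ring
    rw [h1, tr, ← hZ]
    ring
  have n1 : ‖2 * Z‖ ≤ 2 * C * √|τ| := by
    rw [two]
    refine (norm_integral_le_integral_norm _).trans ((le_of_eq ?_).trans (mod τ))
    congr 1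
    funext x
    rw [norm_mul, nE, mul_one, Complex.norm_real, Real.norm_eq_abs, abs_sub_comm]
  rw [norm_mul, Complex.norm_ofNat] at n1
  have n2 : √|τ| = √Real.pi / √|t| := by
    rw [hτ, abs_div, abs_of_pos Real.pi_pos, Real.sqrt_div Real.pi_pos.le]
  rw [n2] at n1
  have : C * √Real.pi / √|t| = C * (√Real.pi / √|t|) := by ring
  rw [this]
  linarith

end

end Pool.Agent.Helper99.HD
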