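import Pool.Graph.R_seed8.Y139.PD.F
import Pool.Agent.Helper99.HD.Trans

/-!
The measure `|x|^(3/2) ν`: translations, Fourier transform, limits.
-/

set_option autoImplicit false
open MeasureTheory Filter Topology Complex
open scoped ContDiff ENNReal

namespace Pool.Agent.Helper99.HD

open Pool.Agent.TH421.AC
open Pool.Agent.Y139.PD (cut cut_co cut_0 cut_1 cut_e cut_s)

noncomputable section

/-- the measure `|x|^(3/2) ν` -/
def wlaw (ν : Measure ℝ) : Measure ℝ :=
  ν.withDensity (fun x => ENNReal.ofReal (|x| * √|x|))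

/-- the basic property: signed functions with a small primitive -/
def Sgn (ν : Measure ℝ) (c e : ℝ) : Prop :=
  ∀ (g : ℝ → ℝ) (δ : ℝ), ContDiff ℝ ∞ g → (∀ x, |g x| ≤ 1) → 0 < δ → (∀ x, |Pr g x| ≤ δ) →
    |∫ x, g x * (|x| * √|x|) ∂ν| ≤ c * √δ + e

lemma W_co : Continuous (fun x : ℝ => |x| * √|x|) := by fun_prop

lemma W_le (x : ℝ) : |x| * √|x| ≤ 1 + x ^ 2 := by
  obtain ⟨a, ha⟩ : ∃ a, a = √|x| := ⟨_, rfl⟩
  have a0 : 0 ≤ a := by rw [ha]; exact Real.sqrt_nonneg _
  have aa : |x| = a ^ 2 := by rw [ha, Real.sq_sqrt (abs_nonneg _)]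
  rw [← sq_abs x, ← ha, aa]
  nlinarith [sq_nonneg (a - 1), sq_nonneg (a ^ 2 - 1), sq_nonneg (a ^ 2 - a), sq_nonneg a]

lemma W_le' {κ : ℝ} (hκ : 0 < κ) (x : ℝ) : |x| * √|x| ≤ κ * x ^ 2 + (κ ^ 3)⁻¹ := by
  obtain ⟨a, ha⟩ : ∃ a, a = √|x| := ⟨_, rfl⟩
  have a0 : 0 ≤ a := by rw [ha]; exact Real.sqrt_nonneg _
  have aa : |x| = a ^ 2 := by rw [ha, Real.sq_sqrt (abs_nonneg _)]
  rw [← sq_abs x, ← ha, aa]
  rcases le_total 1 (κ * a) with h | h
  · have h1 : a ^ 2 * a ≤ κ * (a ^ 2) ^ 2 := by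
      have := mul_le_mul_of_nonneg_left h (by positivity : 0 ≤ a ^ 2 * a)
      nlinarith
    have : 0 < (κ ^ 3)⁻¹ := by positivity
    linarith
  · have h1 : a ≤ κ⁻¹ := by
      rw [inv_eq_one_div, le_div_iff₀ hκ, mul_comm]; exact h
    have h2 : a ^ 2 * a ≤ (κ ^ 3)⁻¹ := by
      have := pow_le_pow_left₀ a0 h1 3
      rw [inv_pow] at this
      nlinarith
    have : 0 ≤ κ * (a ^ 2) ^ 2 := by positivity
    linarith

lemma wlaw_int {ν : Measure ℝ} (f : ℝ → ℝ) :
    ∫ x, f x ∂(wlaw ν) = ∫ x, f x * (|x| * √|x|) ∂ν := by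
  unfold wlaw
  rw [integral_withDensity_eq_integral_toReal_smul W_co.measurable.ennreal_ofReal
    (ae_of_all _ fun _ => ENNReal.ofReal_lt_top)]
  refine integral_congr_ae (ae_of_all _ fun x => ?_)
  show (ENNReal.ofReal (|x| * √|x|)).toReal • f x = f x * (|x| * √|x|)
  rw [ENNReal.toReal_ofReal (by positivity), smul_eq_mul, mul_comm]

/-- finiteness of `|x|^(3/2) ν` -/
lemma wlaw_fin {ν : Measure ℝ} [IsFiniteMeasure ν] {D : ℝ}
    (H : ∀ N : ℕ, ∫ x, cut N x * (|x| * √|x|) ∂ν ≤ D) : IsFiniteMeasure (wlaw ν) := by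
  refine ⟨?_⟩
  unfold wlaw
  rw [withDensity_apply _ MeasurableSet.univ, Measure.restrict_univ]
  refine lt_of_le_of_lt ?_ (ENNReal.ofReal_lt_top (r := D))
  have cF : ∀ N : ℕ, Continuous (fun x => cut N x * (|x| * √|x|)) := fun N => (cut_co N).mul W_co
  have e1 : ∀ x : ℝ, ENNReal.ofReal (|x| * √|x|) =
      liminf (fun N : ℕ => ENNReal.ofReal (cut N x * (|x| * √|x|))) atTop := by
    intro x
    refine (Tendsto.liminf_eq ?_).symm
    refine tendsto_const_nhds.congr' ?_
    obtain ⟨N0, hN0⟩ := exists_nat_ge |x|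
    filter_upwards [eventually_ge_atTop N0] with N hN
    have : |x| ≤ (N : ℝ) := hN0.trans (by exact_mod_cast hN)
    rw [cut_e this, one_mul]
  simp_rw [e1]
  refine (lintegral_liminf_le fun N => (cF N).measurable.ennreal_ofReal).trans ?_
  refine Filter.liminf_le_of_frequently_le' (Frequently.of_forall fun N => ?_)
  rw [← ofReal_integral_eq_lintegral_ofReal ((cF N).integrable_of_hasCompactSupport
    (cut_s N).mul_right) (ae_of_all _ fun x => mul_nonneg (cut_0 N x) (by positivity))]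
  exact ENNReal.ofReal_le_ofReal (H N)

/-- from test functions to the translations of Borel sets -/
lemma sets_of {ν : Measure ℝ} [IsFiniteMeasure ν] (fw : IsFiniteMeasure (wlaw ν)) {c e : ℝ}
    (he : 0 ≤ e)
    (H : ∀ (g : ℝ → ℝ) (δ : ℝ), ContDiff ℝ ∞ g → HasCompactSupport g → (∀ x, |g x| ≤ 1) →
      0 < δ → (∀ x, |Pr g x| ≤ δ) → |∫ x, g x * (|x| * √|x|) ∂ν| ≤ c * √δ + e) :
    ∀ A : Set ℝ, MeasurableSet A → ∀ τ : ℝ,
      |(wlaw ν).real ((fun x => x + τ) ⁻¹' A) - (wlaw ν).real A| ≤ c * √|τ| + e := by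
  intro A mA τ
  rcases eq_or_ne τ 0 with rfl | hτ
  · simpa using he
  refine sets_of_tests (fun b sb cb b0 b1 => ?_) mA
  have sτ : ContDiff ℝ ∞ (fun x => b (x + τ)) := sb.comp (contDiff_id.add contDiff_const)
  have cτ : HasCompactSupport (fun x => b (x + τ)) :=
    cb.comp_homeomorph (Homeomorph.addRight τ)
  have i1 : Integrable (fun x => b (x + τ)) (wlaw ν) :=
    sτ.continuous.integrable_of_hasCompactSupport cτ
  have i2 : Integrable b (wlaw ν) := sb.continuous.integrable_of_hasCompactSupport cb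
  rw [← integral_sub i1 i2, wlaw_int]
  refine H (fun x => b (x + τ) - b x) |τ| (sτ.sub sb) (cτ.sub cb) (fun x => ?_)
    (abs_pos.2 hτ) (shift_prim sb.continuous b0 b1 τ)
  rw [abs_le]
  have := b0 x; have := b1 x; have := b0 (x + τ); have := b1 (x + τ)
  constructor <;> linarith

/-- the primitive of `cos (t x - α)` -/
lemma cos_prim {t : ℝ} (ht : t ≠ 0) (α x : ℝ) :
    |Pr (fun y => Real.cos (t * y - α)) x| ≤ 2 / |t| := by
  have e1 : Pr (fun y => Real.cos (t * y - α)) x =
      (Real.sin (t * x - α) - Real.sin (t * 0 - α)) / t := by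
    unfold Pr
    have cc : Continuous (fun y => Real.cos (t * y - α)) := by fun_prop
    have h0 := intervalIntegral.integral_eq_sub_of_hasDerivAt (a := 0) (b := x)
      (f := fun y => Real.sin (t * y - α) / t) (f' := fun y => Real.cos (t * y - α))
      (fun y _ => by
        have h1 : HasDerivAt (fun y : ℝ => t * y - α) t y := by
          simpa using ((hasDerivAt_id y).const_mul t).sub_const α
        have h2 := ((Real.hasDerivAt_sin (t * y - α)).comp y h1).div_const t
        refine h2.congr_deriv ?_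
        field_simp) (cc.intervalIntegrable _ _)
    rw [h0]
    ring
  rw [e1, abs_div]
  refine div_le_div_of_nonneg_right ?_ (abs_nonneg t)
  rw [abs_le]
  have h1 := Real.sin_le_one (t * x - α)
  have h2 := Real.neg_one_le_sin (t * x - α)
  have h3 := Real.sin_le_one (t * 0 - α)
  have h4 := Real.neg_one_le_sin (t * 0 - α)
  constructor <;> linarith

/-- the characteristic function -/
lemma char_of {ν : Measure ℝ} (fw : IsFiniteMeasure (wlaw ν)) {c e : ℝ} (H : Sgn ν c e)
    {t : ℝ} (ht : t ≠ 0) : ‖charFun (wlaw ν) t‖ ≤ c * √(2 / |t|) + e := by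
  obtain ⟨Z, hZ⟩ : ∃ Z : ℂ, Z = charFun (wlaw ν) t := ⟨_, rfl⟩
  have eZ : Z = ∫ x : ℝ, cexp (t * x * I) ∂(wlaw ν) := by rw [hZ, charFun_apply_real]
  have cE : Continuous (fun x : ℝ => cexp (t * x * I)) := by fun_prop
  have nE : ∀ x : ℝ, ‖cexp (t * x * I)‖ ≤ 1 := fun x => by
    have h1 : cexp (t * x * I) = cexp (((t * x : ℝ) : ℂ) * I) := by push_cast; rfl
    rw [h1, Complex.norm_exp_ofReal_mul_I]
  have iG : Integrable (fun x : ℝ => cexp (t * x * I)) (wlaw ν) :=
    Integrable.of_bound cE.aestronglyMeasurable 1 (ae_of_all _ nE)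
  rw [← hZ]
  obtain ⟨α, hα⟩ : ∃ α : ℝ, α = Complex.arg Z := ⟨_, rfl⟩
  have pol : cexp (-(α * I)) * Z = (‖Z‖ : ℂ) := by
    have h1 := Complex.norm_mul_exp_arg_mul_I Z
    rw [← hα] at h1
    conv_lhs => rw [← h1]
    rw [mul_left_comm, ← Complex.exp_add, neg_add_cancel, Complex.exp_zero, mul_one]
  have re1 : ‖Z‖ = ∫ x : ℝ, (cexp (-(α * I)) * cexp (t * x * I)).re ∂(wlaw ν) := by
    have h1 := integral_re (iG.const_mul (cexp (-(α * I))))
    have h2 : ∫ x : ℝ, cexp (-(α * I)) * cexp (t * x * I) ∂(wlaw ν) = (‖Z‖ : ℂ) := by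
      rw [integral_const_mul, ← eZ, pol]
    have h3 : (∫ x : ℝ, (cexp (-(α * I)) * cexp (t * x * I)).re ∂(wlaw ν)) =
      (∫ x : ℝ, cexp (-(α * I)) * cexp (t * x * I) ∂(wlaw ν)).re := h1
    rw [h3, h2, Complex.ofReal_re]
  have F := H (fun x => Real.cos (t * x - α)) (2 / |t|)
    (Real.contDiff_cos.comp ((contDiff_const.mul contDiff_id).sub contDiff_const))
    (fun x => Real.abs_cos_le_one _) (by positivity) (cos_prim ht α)
  have e1 : ∫ x : ℝ, (cexp (-(α * I)) * cexp (t * x * I)).re ∂(wlaw ν) =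
      ∫ x, Real.cos (t * x - α) ∂(wlaw ν) := by
    congr 1
    funext x
    have h1 : cexp (-(α * I)) * cexp (t * x * I) = cexp (((t * x - α : ℝ) : ℂ) * I) := by
      rw [← Complex.exp_add]
      congr 1
      push_cast
      ring
    rw [h1, Complex.exp_ofReal_mul_I_re]
  rw [re1, e1, wlaw_int]
  exact (le_abs_self _).trans F

/-- a modulus of continuity implies absolute continuity -/
lemma ac_of_mod {μ : Measure ℝ} [IsFiniteMeasure μ] {C : ℝ} (C0 : 0 ≤ C)
    (H : ∀ A : Set ℝ, MeasurableSet A → ∀ τ : ℝ,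
      |μ.real ((fun x => x + τ) ⁻¹' A) - μ.real A| ≤ C * √|τ|) : μ ≪ volume := by
  refine Measure.AbsolutelyContinuous.mk fun A mA hA => ?_
  have m1 : MeasurableSet {p : ℝ × ℝ | p.2 + p.1 ∈ A} :=
    (measurable_snd.add measurable_fst) mA
  have h0 : ((volume : Measure ℝ).prod μ) {p : ℝ × ℝ | p.2 + p.1 ∈ A} = 0 := by
    rw [Measure.prod_apply_symm m1]
    have : ∀ x : ℝ, volume ((fun τ => (τ, x)) ⁻¹' {p : ℝ × ℝ | p.2 + p.1 ∈ A}) = 0 := by
      intro x
      have e : (fun τ : ℝ => (τ, x)) ⁻¹' {p : ℝ × ℝ | p.2 + p.1 ∈ A} =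
          (fun τ => x + τ) ⁻¹' A := rfl
      rw [e, measure_preimage_add]
      exact hA
    simp_rw [this]
    exact lintegral_zero
  have h1 := Measure.measure_ae_null_of_prod_null h0
  have h2 : ∀ᵐ τ ∂(volume : Measure ℝ), μ ((fun x => x + τ) ⁻¹' A) = 0 := h1
  -- there are arbitrarily small such `τ`
  have key : ∀ η : ℝ, 0 < η → μ.real A ≤ C * √η := by
    intro η hη
    have h3 : ∃ τ ∈ Set.Ioo 0 η, μ ((fun x => x + τ) ⁻¹' A) = 0 := by
      by_contra hcon
      push Not at hcon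
      have h4 : volume (Set.Ioo (0 : ℝ) η) ≤
          volume {τ : ℝ | ¬ μ ((fun x => x + τ) ⁻¹' A) = 0} :=
        measure_mono fun τ hτ => hcon τ hτ
      rw [ae_iff.1 h2, Real.volume_Ioo] at h4
      simp at h4
      linarith
    obtain ⟨τ, hτ, h5⟩ := h3
    have h6 := H A mA τ
    rw [measureReal_def, h5, ENNReal.toReal_zero, zero_sub, abs_neg,
      abs_of_nonneg measureReal_nonneg, abs_of_pos hτ.1] at h6
    exact h6.trans (mul_le_mul_of_nonneg_left (Real.sqrt_le_sqrt hτ.2.le) C0)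
  have lim : Tendsto (fun η : ℝ => C * √η) (𝓝[>] 0) (𝓝 (C * √0)) := by
    refine Tendsto.mono_left ?_ nhdsWithin_le_nhds
    refine Continuous.tendsto (f := fun η : ℝ => C * √η) ?_ 0
    fun_prop
  rw [Real.sqrt_zero, mul_zero] at lim
  have h7 := ge_of_tendsto lim (eventually_nhdsWithin_of_forall fun η hη => key η hη)
  have h8 : μ.real A = 0 := le_antisymm h7 measureReal_nonneg
  rw [measureReal_def, ENNReal.toReal_eq_zero_iff] at h8
  exact h8.resolve_right (measure_ne_top _ _)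

/-- **Limits.** -/
theorem limit_case {μ : ℕ → Measure ℝ} {ν : Measure ℝ} [IsFiniteMeasure ν] {c D0 D : ℝ}
    (c0 : 0 ≤ c) (hD : ∀ᶠ n in atTop, IsFiniteMeasure (μ n) ∧ (μ n).real Set.univ ≤ D0 ∧
      Integrable (fun x => x ^ 2) (μ n) ∧ ∫ x, x ^ 2 ∂(μ n) ≤ D)
    (U : ∀ ε : ℝ, 0 < ε → ∀ᶠ n in atTop, Sgn (μ n) (c + ε) ε)
    (hlim : ∃ σ : ℕ → ℕ, StrictMono σ ∧ ∀ g : ℝ → ℝ, Continuous g → HasCompactSupport g →
      Tendsto (fun n => ∫ x, g x ∂(μ (σ n))) atTop (𝓝 (∫ x, g x ∂ν))) :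
    ∃ w : ℝ → ℝ, Measurable w ∧ (∀ x, 0 ≤ w x) ∧ Integrable w ∧
      wlaw ν = volume.withDensity (fun x => ENNReal.ofReal (w x)) ∧
      (∀ τ : ℝ, ∫ x, |w (x + τ) - w x| ≤ 2 * c * √|τ|) ∧
      (∀ t : ℝ, t ≠ 0 → ‖charFun (wlaw ν) t‖ ≤ c * √(2 / |t|)) := by
  obtain ⟨σ, hσ, hg⟩ := hlim
  have base : ∀ (g : ℝ → ℝ) (δ : ℝ), ContDiff ℝ ∞ g → HasCompactSupport g →
      (∀ x, |g x| ≤ 1) → 0 < δ → (∀ x, |Pr g x| ≤ δ) →
      |∫ x, g x * (|x| * √|x|) ∂ν| ≤ c * √δ + 0 := by
    intro g δ sg cg g1 hδ gP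
    have cG : Continuous (fun x => g x * (|x| * √|x|)) := sg.continuous.mul W_co
    have sG : HasCompactSupport (fun x => g x * (|x| * √|x|)) := cg.mul_right
    have lim := (hg _ cG sG).abs
    have each : ∀ ε : ℝ, 0 < ε → |∫ x, g x * (|x| * √|x|) ∂ν| ≤ (c + ε) * √δ + ε :=
      fun ε ε0 => le_of_tendsto lim ((hσ.tendsto_atTop.eventually (U ε ε0)).mono
        fun n hn => hn g δ sg g1 hδ gP)
    have l2 : Tendsto (fun ε : ℝ => (c + ε) * √δ + ε) (𝓝[>] 0) (𝓝 ((c + 0) * √δ + 0)) := by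
      refine Tendsto.mono_left ?_ nhdsWithin_le_nhds
      refine Continuous.tendsto (f := fun ε : ℝ => (c + ε) * √δ + ε) ?_ 0
      fun_prop
    rw [add_zero c] at l2
    exact ge_of_tendsto l2 (eventually_nhdsWithin_of_forall fun ε hε => each ε hε)
  have fw : IsFiniteMeasure (wlaw ν) := by
    refine wlaw_fin (D := D0 + D) fun N => ?_
    have lim := hg _ ((cut_co N).mul W_co) ((cut_s N).mul_right)
    refine le_of_tendsto lim ((hσ.tendsto_atTop.eventually hD).mono fun n hn => ?_)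
    obtain ⟨f1, f2, f3, f4⟩ := hn
    have h1 : ∫ x, cut N x * (|x| * √|x|) ∂(μ (σ n)) ≤ ∫ x, (1 + x ^ 2) ∂(μ (σ n)) := by
      refine integral_mono (((cut_co N).mul W_co).integrable_of_hasCompactSupport
        (cut_s N).mul_right) ((integrable_const 1).add f3) fun x => ?_
      have := W_le x
      have h0 : 0 ≤ |x| * √|x| := by positivity
      exact (mul_le_of_le_one_left h0 (cut_1 N x)).trans this
    rw [integral_add (integrable_const 1) f3, integral_const, smul_eq_mul, mul_one] at h1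
    exact h1.trans (add_le_add f2 f4)
  have iW : Integrable (fun x => |x| * √|x|) ν := by
    refine ⟨W_co.aestronglyMeasurable, ?_⟩
    rw [hasFiniteIntegral_iff_ofReal (ae_of_all _ fun x => by positivity)]
    have h1 := measure_lt_top (wlaw ν) Set.univ
    unfold wlaw at h1
    rwa [withDensity_apply _ MeasurableSet.univ, Measure.restrict_univ] at h1
  -- all smooth functions
  have all : Sgn ν c 0 := by
    intro g δ sg g1 hδ gP
    have tail : ∀ N : ℕ, 0 < N → |∫ x, cut N x * (g x * (|x| * √|x|)) ∂ν| ≤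
        c * √δ + |D| / √(N : ℝ) := by
      intro N hN
      have N0 : (0 : ℝ) < N := by exact_mod_cast hN
      have sN : 0 < √(N : ℝ) := Real.sqrt_pos.2 N0
      have cG : Continuous (fun x => cut N x * (g x * (|x| * √|x|))) :=
        (cut_co N).mul (sg.continuous.mul W_co)
      have lim := (hg _ cG ((cut_s N).mul_right)).abs
      have each : ∀ ε : ℝ, 0 < ε → |∫ x, cut N x * (g x * (|x| * √|x|)) ∂ν| ≤
          (c + ε) * √δ + ε + |D| / √(N : ℝ) := by
        intro ε ε0
        refine le_of_tendsto lim ((hσ.tendsto_atTop.eventually ((U ε ε0).and hD)).mono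
          fun n hn => ?_)
        obtain ⟨hn, f1, f2, f3, f4⟩ := hn
        have i1 : Integrable (fun x => g x * (|x| * √|x|)) (μ (σ n)) := by
          refine ((integrable_const (1 : ℝ)).add f3).mono'
            (sg.continuous.mul W_co).aestronglyMeasurable (ae_of_all _ fun x => ?_)
          rw [Real.norm_eq_abs, abs_mul, abs_of_nonneg (by positivity : 0 ≤ |x| * √|x|)]
          exact (mul_le_of_le_one_left (by positivity) (g1 x)).trans (W_le x)
        have i2 : Integrable (fun x => cut N x * (g x * (|x| * √|x|))) (μ (σ n)) :=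
          cG.integrable_of_hasCompactSupport (cut_s N).mul_right
        have h1 := hn g δ sg g1 hδ gP
        have h2 : |(∫ x, g x * (|x| * √|x|) ∂(μ (σ n))) -
            ∫ x, cut N x * (g x * (|x| * √|x|)) ∂(μ (σ n))| ≤ |D| / √(N : ℝ) := by
          rw [← integral_sub i1 i2]
          have h3 : ∫ x, x ^ 2 / √(N : ℝ) ∂(μ (σ n)) ≤ |D| / √(N : ℝ) := by
            rw [integral_div]
            exact div_le_div_of_nonneg_right (f4.trans (le_abs_self D)) sN.le
          refine (abs_integral_le_integral_abs.trans ?_).trans h3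
          refine integral_mono (i1.sub i2).abs (f3.div_const _) fun x => ?_
          show |g x * (|x| * √|x|) - cut N x * (g x * (|x| * √|x|))| ≤ x ^ 2 / √(N : ℝ)
          rcases le_or_gt |x| N with hx | hx
          · rw [cut_e hx, one_mul, sub_self, abs_zero]; positivity
          · have e1 : g x * (|x| * √|x|) - cut N x * (g x * (|x| * √|x|)) =
                (1 - cut N x) * (g x * (|x| * √|x|)) := by ring
            rw [e1, abs_mul, abs_mul, abs_of_nonneg (sub_nonneg.2 (cut_1 N x)),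
              abs_of_nonneg (by positivity : 0 ≤ |x| * √|x|)]
            have h4 : (1 - cut N x) * (|g x| * (|x| * √|x|)) ≤ |x| * √|x| := by
              have a1 : 1 - cut N x ≤ 1 := by have := cut_0 N x; linarith
              have a2 : |g x| * (|x| * √|x|) ≤ |x| * √|x| :=
                mul_le_of_le_one_left (by positivity) (g1 x)
              exact (mul_le_of_le_one_left (by positivity) a1).trans a2
            refine h4.trans ?_
            rw [le_div_iff₀ sN, ← sq_abs x]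
            have h5 : √(N : ℝ) ≤ √|x| := Real.sqrt_le_sqrt hx.le
            calc |x| * √|x| * √(N : ℝ) ≤ |x| * √|x| * √|x| :=
                  mul_le_mul_of_nonneg_left h5 (by positivity)
              _ = |x| ^ 2 := by rw [mul_assoc, Real.mul_self_sqrt (abs_nonneg x)]; ring
        have h6 : |∫ x, cut N x * (g x * (|x| * √|x|)) ∂(μ (σ n))| ≤
            |∫ x, g x * (|x| * √|x|) ∂(μ (σ n))| +
            |(∫ x, g x * (|x| * √|x|) ∂(μ (σ n))) -
              ∫ x, cut N x * (g x * (|x| * √|x|)) ∂(μ (σ n))| := by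
          have := abs_sub (∫ x, g x * (|x| * √|x|) ∂(μ (σ n)))
            ((∫ x, g x * (|x| * √|x|) ∂(μ (σ n))) -
              ∫ x, cut N x * (g x * (|x| * √|x|)) ∂(μ (σ n)))
          rwa [sub_sub_cancel] at this
        linarith
      have l2 : Tendsto (fun ε : ℝ => (c + ε) * √δ + ε + |D| / √(N : ℝ)) (𝓝[>] 0)
          (𝓝 ((c + 0) * √δ + 0 + |D| / √(N : ℝ))) := by
        refine Tendsto.mono_left ?_ nhdsWithin_le_nhds
        refine Continuous.tendsto (f := fun ε : ℝ => (c + ε) * √δ + ε + |D| / √(N : ℝ)) ?_ 0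
        fun_prop
      rw [add_zero, add_zero] at l2
      exact ge_of_tendsto l2 (eventually_nhdsWithin_of_forall fun ε hε => each ε hε)
    have conv : Tendsto (fun N : ℕ => ∫ x, cut N x * (g x * (|x| * √|x|)) ∂ν) atTop
        (𝓝 (∫ x, g x * (|x| * √|x|) ∂ν)) := by
      refine tendsto_integral_of_dominated_convergence (fun x => |x| * √|x|)
        (fun N => ((cut_co N).mul (sg.continuous.mul W_co)).aestronglyMeasurable) iW
        (fun N => ae_of_all _ fun x => ?_) (ae_of_all _ fun x => ?_)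
      · rw [Real.norm_eq_abs, abs_mul, abs_mul, abs_of_nonneg (cut_0 N x),
          abs_of_nonneg (by positivity : 0 ≤ |x| * √|x|)]
        have a2 : |g x| * (|x| * √|x|) ≤ |x| * √|x| :=
          mul_le_of_le_one_left (by positivity) (g1 x)
        exact (mul_le_of_le_one_left (by positivity) (cut_1 N x)).trans a2
      · refine tendsto_const_nhds.congr' ?_
        obtain ⟨N0, hN0⟩ := exists_nat_ge |x|
        filter_upwards [eventually_ge_atTop N0] with N hN
        have : |x| ≤ (N : ℝ) := hN0.trans (by exact_mod_cast hN)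
        rw [cut_e this, one_mul]
    have lN : Tendsto (fun N : ℕ => c * √δ + |D| / √(N : ℝ)) atTop (𝓝 (c * √δ + 0)) :=
      (tendsto_const_nhds.div_atTop
        (Real.tendsto_sqrt_atTop.comp tendsto_natCast_atTop_atTop)).const_add _
    exact le_of_tendsto_of_tendsto conv.abs lN
      ((eventually_gt_atTop 0).mono fun N hN => tail N hN)
  have sets := sets_of fw le_rfl base
  simp only [add_zero] at sets
  obtain ⟨w, mw, w0, iw, ww, wm, -⟩ := dens_of_sets (ac_of_mod c0 sets) sets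
  refine ⟨w, mw, w0, iw, ww, wm, fun t ht => ?_⟩
  have := char_of fw all ht
  rwa [add_zero] at this

end

end Pool.Agent.Helper99.HD
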