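import Pool.Agent.Helper99.HD.Uni
import Pool.Agent.Helper99.HD.Meas

/-!
Surfaces of finite area.
-/

set_option autoImplicit false
open MeasureTheory Filter Topology Complex
open scoped ContDiff ENNReal

namespace Pool.Agent.Helper99.HD

open Pool.Agent.W745.RW Pool.Agent.TH294.RS Pool.Agent.TH294.RG Pool.Agent.TH421.DF
open Pool.Agent.TH421.AC Pool.Agent.Y139.PD Pool.Agent.E8helper19.LW
open Pool.Agent.Results.MP_a52643_an.AbsoluteContinuity

noncomputable section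

/-- the area measure of the metric `ρ |dz|²` on `Ω` -/
def areaM (Ω : Set ℂ) (ρ : ℂ → ℝ) : Measure ℂ :=
  (volume.restrict Ω).withDensity (fun z => ENNReal.ofReal (ρ z))

/-- the law of `f` under the normalised area -/
def lawM (Ω : Set ℂ) (ρ f : ℂ → ℝ) : Measure ℝ :=
  ((areaM Ω ρ Set.univ)⁻¹ • areaM Ω ρ).map f

variable {Ω : Set ℂ} {ρ : ℂ → ℝ}

lemma area_aer (hΩ : IsOpen Ω) (hρ : ContDiffOn ℝ ∞ ρ Ω) :
    AEMeasurable (fun z => ENNReal.ofReal (ρ z)) (volume.restrict Ω) :=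
  (hρ.continuousOn.aemeasurable hΩ.measurableSet).ennreal_ofReal

lemma area_int (hΩ : IsOpen Ω) (hρ : ContDiffOn ℝ ∞ ρ Ω) (ρ0 : ∀ z ∈ Ω, 0 < ρ z) (F : ℂ → ℝ) :
    ∫ z, F z ∂(areaM Ω ρ) = ∫ z in Ω, ρ z * F z := by
  rw [areaM, integral_withDensity_eq_integral_toReal_smul₀ (area_aer hΩ hρ)
    (ae_of_all _ fun z => ENNReal.ofReal_lt_top)]
  refine setIntegral_congr_fun hΩ.measurableSet fun z hz => ?_
  show (ENNReal.ofReal (ρ z)).toReal • F z = ρ z * F z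
  rw [ENNReal.toReal_ofReal (ρ0 z hz).le, smul_eq_mul]

lemma area_integrable (hΩ : IsOpen Ω) (hρ : ContDiffOn ℝ ∞ ρ Ω) (ρ0 : ∀ z ∈ Ω, 0 < ρ z)
    {F : ℂ → ℝ} (hF : Integrable F (areaM Ω ρ)) : IntegrableOn (fun z => ρ z * F z) Ω := by
  rw [areaM, integrable_withDensity_iff_integrable_smul₀' (area_aer hΩ hρ)
    (ae_of_all _ fun z => ENNReal.ofReal_lt_top)] at hF
  refine hF.congr ?_
  refine (ae_restrict_iff' hΩ.measurableSet).2 (ae_of_all _ fun z hz => ?_)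
  show (ENNReal.ofReal (ρ z)).toReal • F z = ρ z * F z
  rw [ENNReal.toReal_ofReal (ρ0 z hz).le, smul_eq_mul]

lemma area_test (hΩ : IsOpen Ω) (hρ : ContDiffOn ℝ ∞ ρ Ω) (ρ0 : ∀ z ∈ Ω, 0 < ρ z) {χ : ℂ → ℝ}
    (hχ : TF Ω χ) (F : ℂ → ℝ) :
    ∫ z, χ z * F z ∂(areaM Ω ρ) = ∫ z, χ z * (ρ z * F z) := by
  rw [area_int hΩ hρ ρ0, ← integral_indicator hΩ.measurableSet]
  congr 1
  funext z
  by_cases hz : z ∈ Ω
  · rw [Set.indicator_of_mem hz]; ring
  · rw [Set.indicator_of_notMem hz, image_eq_zero_of_notMem_tsupport fun h => hz (hχ.2.2 h)]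
    ring

/-- **The inequality on a surface of finite area.** -/
theorem U3g {lam : ℕ → ℝ} {u : ℕ → ℂ → ℝ} (hΩ : IsOpen Ω) (hρ : ContDiffOn ℝ ∞ ρ Ω)
    (ρ0 : ∀ z ∈ Ω, 0 < ρ z) (hlam : Tendsto lam atTop atTop) (hu : ∀ n, ContDiffOn ℝ ∞ (u n) Ω)
    (he : ∀ n, ∀ z ∈ Ω, lapl (u n) z + lam n * (ρ z * u n z) = 0)
    (fin : IsFiniteMeasure (areaM Ω ρ)) {Q : ℝ}
    (hQ : ∀ n, Integrable (fun z => u n z ^ 2) (areaM Ω ρ) ∧
      ∫ z, u n z ^ 2 ∂(areaM Ω ρ) ≤ Q) {ε : ℝ} (ε0 : 0 < ε) :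
    ∀ᶠ n in atTop, ∀ (g : ℝ → ℝ) (δ : ℝ), ContDiff ℝ ∞ g → (∀ x, |g x| ≤ 1) → 0 < δ →
      (∀ x, |Pr g x| ≤ δ) →
      |∫ z, g (u n z) * (|u n z| * √|u n z|) ∂(areaM Ω ρ)| ≤
        (16 * √((areaM Ω ρ).real Set.univ * Q) + ε) * √δ + ε := by
  have Q0 : 0 ≤ Q := (integral_nonneg fun z => sq_nonneg _).trans (hQ 0).2
  -- local boundedness
  have hL : LocL2 Ω u := by
    intro K hK hKΩ
    rcases K.eq_empty_or_nonempty with rfl | hne
    · exact ⟨0, Eventually.of_forall fun n => by simp⟩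
    obtain ⟨z, hz, hm⟩ := hK.exists_isMinOn hne (hρ.continuousOn.mono hKΩ)
    have c0 : 0 < ρ z := ρ0 z (hKΩ hz)
    have hc : ∀ w ∈ K, ρ z ≤ ρ w := fun w hw => hm hw
    refine ⟨(ρ z)⁻¹ * Q, Eventually.of_forall fun n => ?_⟩
    have i1 := area_integrable hΩ hρ ρ0 (hQ n).1
    have cu : ContinuousOn (u n) K := (hu n).continuousOn.mono hKΩ
    have h1 : ∫ w in K, ρ w * u n w ^ 2 ≤ Q := by
      refine (setIntegral_mono_set i1 ?_ hKΩ.eventuallyLE).trans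
        ((area_int hΩ hρ ρ0 (fun z => u n z ^ 2)).symm.le.trans (hQ n).2)
      exact (ae_restrict_iff' hΩ.measurableSet).2 (ae_of_all _ fun w hw =>
        mul_nonneg (ρ0 w hw).le (sq_nonneg _))
    have h2 : ∫ w in K, u n w ^ 2 ≤ ∫ w in K, (ρ z)⁻¹ * (ρ w * u n w ^ 2) := by
      refine setIntegral_mono_on ((cu.pow 2).integrableOn_compact hK)
        (((continuousOn_const.mul ((hρ.continuousOn.mono hKΩ).mul
          (cu.pow 2)))).integrableOn_compact hK) hK.measurableSet fun w hw => ?_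
      rw [← mul_assoc]
      refine le_mul_of_one_le_left (sq_nonneg _) ?_
      rw [← inv_mul_cancel₀ c0.ne']
      exact mul_le_mul_of_nonneg_left (hc w hw) (inv_pos.2 c0).le
    rw [integral_const_mul] at h2
    exact h2.trans (mul_le_mul_of_nonneg_left h1 (inv_pos.2 c0).le)
  have H : Hyp Ω ρ lam u := ⟨hΩ, hρ, ρ0, hlam, hu, he, hL⟩
  -- the compact set
  obtain ⟨κ, hκ⟩ : ∃ κ : ℝ, κ = ε / (2 * (Q + 1)) := ⟨_, rfl⟩
  have κ0 : 0 < κ := by rw [hκ]; positivity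
  have κQ : κ * Q ≤ ε / 2 := by
    rw [hκ, div_mul_eq_mul_div, div_le_div_iff₀ (by positivity) (by norm_num)]
    nlinarith
  have η0 : ENNReal.ofReal (κ ^ 3 * (ε / 2)) ≠ 0 := by
    rw [Ne, ENNReal.ofReal_eq_zero, not_le]; positivity
  obtain ⟨K, hKΩ, cK, hK⟩ := hΩ.measurableSet.exists_isCompact_sdiff_lt (μ := areaM Ω ρ)
    (measure_ne_top _ _) η0
  obtain ⟨χ, tχ, χK, χ0, χ1⟩ := exists_cut hΩ cK hKΩ
  have hχ : Test Ω χ := ⟨tχ.1, tχ.2.1, tχ.2.2, χ0⟩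
  have mK := cK.measurableSet
  have Kc : (areaM Ω ρ).real Kᶜ ≤ κ ^ 3 * (ε / 2) := by
    have h1 : areaM Ω ρ Kᶜ ≤ areaM Ω ρ (Ω \ K) := by
      have h2 : areaM Ω ρ Ωᶜ = 0 := by
        rw [areaM]
        refine withDensity_absolutelyContinuous _ _ ?_
        rw [Measure.restrict_apply hΩ.measurableSet.compl, Set.compl_inter_self, measure_empty]
      have h3 : Kᶜ ⊆ (Ω \ K) ∪ Ωᶜ := fun z hz => by
        by_cases h : z ∈ Ω
        · exact Or.inl ⟨h, hz⟩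
        · exact Or.inr h
      refine (measure_mono h3).trans ((measure_union_le _ _).trans ?_)
      rw [h2, add_zero]
    rw [measureReal_def]
    exact ENNReal.toReal_le_of_le_ofReal (by positivity) (h1.trans hK.le)
  have iχ : ∀ {F : ℂ → ℝ}, Integrable F (areaM Ω ρ) →
      Integrable (fun z => χ z * F z) (areaM Ω ρ) := fun hF =>
    hF.bdd_mul (c := 1) tχ.1.continuous.aestronglyMeasurable (ae_of_all _ fun z => by
      rw [Real.norm_eq_abs, abs_of_nonneg (χ0 z)]; exact χ1 z)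
  have hm : ∀ᶠ n in atTop, ∫ z, χ z * (ρ z * u n z ^ 2) ≤ Q := Eventually.of_forall fun n => by
    rw [← area_test hΩ hρ ρ0 tχ (fun z => u n z ^ 2)]
    refine (integral_mono (iχ (hQ n).1) (hQ n).1 fun z => ?_).trans (hQ n).2
    exact mul_le_of_le_one_left (sq_nonneg _) (χ1 z)
  have hA : ∫ z, χ z * ρ z ≤ (areaM Ω ρ).real Set.univ := by
    have e1 : ∫ z, χ z * ρ z = ∫ z, χ z * 1 ∂(areaM Ω ρ) := by
      rw [area_test hΩ hρ ρ0 tχ (fun _ => 1)]; simp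
    rw [e1]
    refine (integral_mono (iχ (integrable_const 1)) (integrable_const 1) fun z => ?_).trans
      (le_of_eq ?_)
    · show χ z * 1 ≤ 1
      rw [mul_one]; exact χ1 z
    · rw [integral_const, smul_eq_mul, mul_one]
  filter_upwards [U2s H hχ hm ε0] with n hn g δ sg g1 hδ gP
  have h1 := hn g δ sg g1 hδ gP
  have cu : ContinuousOn (u n) Ω := (hu n).continuousOn
  have mu : AEMeasurable (u n) (areaM Ω ρ) :=
    (cu.aemeasurable hΩ.measurableSet).mono_ac (withDensity_absolutelyContinuous _ _)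
  have cG : Continuous (fun x : ℝ => g x * (|x| * √|x|)) := sg.continuous.mul W_co
  have iG : Integrable (fun z => g (u n z) * (|u n z| * √|u n z|)) (areaM Ω ρ) := by
    refine ((integrable_const (1 : ℝ)).add (hQ n).1).mono'
      (cG.measurable.comp_aemeasurable mu).aestronglyMeasurable (ae_of_all _ fun z => ?_)
    rw [Real.norm_eq_abs, abs_mul, abs_of_nonneg (by positivity : 0 ≤ |u n z| * √|u n z|)]
    exact (mul_le_of_le_one_left (by positivity) (g1 _)).trans (W_le _)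
  have e1 : ∫ z, χ z * (g (u n z) * (|u n z| * √|u n z|) * ρ z) =
      ∫ z, χ z * (g (u n z) * (|u n z| * √|u n z|)) ∂(areaM Ω ρ) := by
    rw [area_test hΩ hρ ρ0 tχ (fun z => g (u n z) * (|u n z| * √|u n z|))]
    congr 1; funext z; ring
  rw [e1] at h1
  have h2 : |(∫ z, g (u n z) * (|u n z| * √|u n z|) ∂(areaM Ω ρ)) -
      ∫ z, χ z * (g (u n z) * (|u n z| * √|u n z|)) ∂(areaM Ω ρ)| ≤ ε := by
    rw [← integral_sub iG (iχ iG)]
    have i3 : Integrable (Kᶜ.indicator fun _ => (κ ^ 3)⁻¹) (areaM Ω ρ) :=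
      (integrable_const _).indicator mK.compl
    have i4 : Integrable (fun z => κ * u n z ^ 2) (areaM Ω ρ) := (hQ n).1.const_mul κ
    have h3 : ∫ z, (κ * u n z ^ 2 + Kᶜ.indicator (fun _ => (κ ^ 3)⁻¹) z) ∂(areaM Ω ρ) ≤ ε := by
      rw [integral_add i4 i3, integral_const_mul, integral_indicator mK.compl, setIntegral_const,
        smul_eq_mul]
      have a1 : κ * ∫ z, u n z ^ 2 ∂(areaM Ω ρ) ≤ ε / 2 :=
        (mul_le_mul_of_nonneg_left (hQ n).2 κ0.le).trans κQ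
      have a2 : (areaM Ω ρ).real Kᶜ * (κ ^ 3)⁻¹ ≤ ε / 2 := by
        have := mul_le_mul_of_nonneg_right Kc (by positivity : 0 ≤ (κ ^ 3)⁻¹)
        have e : κ ^ 3 * (ε / 2) * (κ ^ 3)⁻¹ = ε / 2 := by field_simp
        rwa [e] at this
      linarith
    refine (abs_integral_le_integral_abs.trans ?_).trans h3
    refine integral_mono (iG.sub (iχ iG)).abs (i4.add i3) fun z => ?_
    show |g (u n z) * (|u n z| * √|u n z|) - χ z * (g (u n z) * (|u n z| * √|u n z|))| ≤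
      κ * u n z ^ 2 + Kᶜ.indicator (fun _ => (κ ^ 3)⁻¹) z
    by_cases hz : z ∈ K
    · rw [χK z hz, one_mul, sub_self, abs_zero,
        Set.indicator_of_notMem (fun h : z ∈ Kᶜ => h hz), add_zero]
      positivity
    · rw [Set.indicator_of_mem (show z ∈ Kᶜ from hz)]
      have e2 : g (u n z) * (|u n z| * √|u n z|) - χ z * (g (u n z) * (|u n z| * √|u n z|)) =
          (1 - χ z) * (g (u n z) * (|u n z| * √|u n z|)) := by ring
      rw [e2, abs_mul, abs_mul, abs_of_nonneg (sub_nonneg.2 (χ1 z)),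
        abs_of_nonneg (by positivity : 0 ≤ |u n z| * √|u n z|)]
      refine le_trans ?_ (W_le' κ0 (u n z))
      have a1 : 1 - χ z ≤ 1 := by have := χ0 z; linarith
      have a2 : |g (u n z)| * (|u n z| * √|u n z|) ≤ |u n z| * √|u n z| :=
        mul_le_of_le_one_left (by positivity) (g1 _)
      exact (mul_le_of_le_one_left (by positivity) a1).trans a2
  have h4 : (16 * √((∫ z, χ z * ρ z) * Q) + ε) * √δ ≤
      (16 * √((areaM Ω ρ).real Set.univ * Q) + ε) * √δ := by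
    refine mul_le_mul_of_nonneg_right ?_ (Real.sqrt_nonneg _)
    have := Real.sqrt_le_sqrt (mul_le_mul_of_nonneg_right hA Q0)
    linarith
  have h5 : |∫ z, g (u n z) * (|u n z| * √|u n z|) ∂(areaM Ω ρ)| ≤
      |∫ z, χ z * (g (u n z) * (|u n z| * √|u n z|)) ∂(areaM Ω ρ)| +
      |(∫ z, g (u n z) * (|u n z| * √|u n z|) ∂(areaM Ω ρ)) -
        ∫ z, χ z * (g (u n z) * (|u n z| * √|u n z|)) ∂(areaM Ω ρ)| := by
    have := abs_add_le (∫ z, χ z * (g (u n z) * (|u n z| * √|u n z|)) ∂(areaM Ω ρ))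
      ((∫ z, g (u n z) * (|u n z| * √|u n z|) ∂(areaM Ω ρ)) -
        ∫ z, χ z * (g (u n z) * (|u n z| * √|u n z|)) ∂(areaM Ω ρ))
    rwa [add_sub_cancel] at this
  linarith

/-- **The laws on a surface of finite area.** -/
theorem U4g {lam : ℕ → ℝ} {u : ℕ → ℂ → ℝ} (hΩ : IsOpen Ω) (hne : areaM Ω ρ Set.univ ≠ 0)
    (hρ : ContDiffOn ℝ ∞ ρ Ω) (ρ0 : ∀ z ∈ Ω, 0 < ρ z) (hlam : Tendsto lam atTop atTop)
    (hu : ∀ n, ContDiffOn ℝ ∞ (u n) Ω)
    (he : ∀ n, ∀ z ∈ Ω, lapl (u n) z + lam n * (ρ z * u n z) = 0)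
    (fin : areaM Ω ρ Set.univ ≠ ⊤) {s : ℝ} (s0 : 0 ≤ s)
    (hQ : ∀ n, Integrable (fun x => x ^ 2) (lawM Ω ρ (u n)) ∧
      ∫ x, x ^ 2 ∂(lawM Ω ρ (u n)) ≤ s ^ 2) :
    (∀ n, IsProbabilityMeasure (lawM Ω ρ (u n))) ∧ ∀ ε : ℝ, 0 < ε →
      ∀ᶠ n in atTop, Sgn (lawM Ω ρ (u n)) (16 * s + ε) ε := by
  have ff : IsFiniteMeasure (areaM Ω ρ) := ⟨lt_top_iff_ne_top.2 fin⟩
  have mu : ∀ n, AEMeasurable (u n) (areaM Ω ρ) := fun n =>
    ((hu n).continuousOn.aemeasurable hΩ.measurableSet).mono_ac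
      (withDensity_absolutelyContinuous _ _)
  have mu' : ∀ n, AEMeasurable (u n) ((areaM Ω ρ Set.univ)⁻¹ • areaM Ω ρ) := fun n =>
    (mu n).smul_measure _
  obtain ⟨V, hV⟩ : ∃ V : ℝ, V = (areaM Ω ρ).real Set.univ := ⟨_, rfl⟩
  have V0 : 0 < V := by rw [hV, measureReal_def]; exact ENNReal.toReal_pos hne fin
  have int : ∀ (n : ℕ) {G : ℝ → ℝ}, Measurable G →
      ∫ x, G x ∂(lawM Ω ρ (u n)) = V⁻¹ * ∫ z, G (u n z) ∂(areaM Ω ρ) := by
    intro n G mG
    rw [lawM, integral_map (mu' n) mG.aestronglyMeasurable, integral_smul_measure,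
      ENNReal.toReal_inv, smul_eq_mul, hV, measureReal_def]
  have pr : ∀ n, IsProbabilityMeasure (lawM Ω ρ (u n)) := by
    intro n
    constructor
    rw [lawM, Measure.map_apply_of_aemeasurable (mu' n) MeasurableSet.univ, Set.preimage_univ,
      Measure.smul_apply, smul_eq_mul, ENNReal.inv_mul_cancel hne fin]
  have msq : Measurable (fun x : ℝ => x ^ 2) := measurable_id.pow_const 2
  have hQ' : ∀ n, Integrable (fun z => u n z ^ 2) (areaM Ω ρ) ∧
      ∫ z, u n z ^ 2 ∂(areaM Ω ρ) ≤ V * s ^ 2 := by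
    intro n
    constructor
    · have h1 := (hQ n).1
      rw [lawM, integrable_map_measure msq.aestronglyMeasurable (mu' n)] at h1
      have h2 := h1.smul_measure (c := areaM Ω ρ Set.univ) fin
      rw [smul_smul, ENNReal.mul_inv_cancel hne fin, one_smul] at h2
      exact h2
    · have h1 := (hQ n).2
      rw [int n msq, inv_mul_le_iff₀ V0] at h1
      exact h1
  refine ⟨pr, fun ε ε0 => ?_⟩
  filter_upwards [U3g hΩ hρ ρ0 hlam hu he ff hQ' (ε := V * ε) (by positivity)] with n hn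
  intro g δ sg g1 hδ gP
  have h1 := hn g δ sg g1 hδ gP
  rw [int n (G := fun x => g x * (|x| * √|x|)) (sg.continuous.mul W_co).measurable, abs_mul, abs_of_pos (inv_pos.2 V0),
    inv_mul_le_iff₀ V0]
  refine h1.trans (le_of_eq ?_)
  have e : (areaM Ω ρ).real Set.univ * (V * s ^ 2) = (V * s) ^ 2 := by rw [← hV]; ring
  rw [e, Real.sqrt_sq (by positivity)]
  ring

end

end Pool.Agent.Helper99.HD
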