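import Pool.Graph.R_pool_sql_team_seeded_b677cdb8.E8helper19.LW.Sharp
import Pool.Agent.Helper99.HD.Glob

/-!
The flat square `(0, 2π)²` and the functions `cos (n x)`.
-/

set_option autoImplicit false
open MeasureTheory Filter Topology Complex Function
open scoped ContDiff ENNReal

namespace Pool.Agent.Helper99.HD

open Pool.Agent.E8helper19.LW
open Pool.Agent.Y139.PD (cut cut_co cut_0 cut_1 cut_e cut_s)

noncomputable section

/-- the square -/
def sq : Set ℂ := Set.Ioo 0 (2 * Real.pi) ×ℂ Set.Ioo 0 (2 * Real.pi)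

lemma sq_open : IsOpen sq := isOpen_Ioo.reProdIm isOpen_Ioo

lemma sq_int {G : ℝ → ℝ} :
    ∫ z in sq, G z.re = (∫ x in (0 : ℝ)..(2 * Real.pi), G x) * (2 * Real.pi) := by
  have hpi := Real.pi_pos
  have h1 := Complex.volume_preserving_equiv_real_prod.setIntegral_preimage_emb
    Complex.measurableEquivRealProd.measurableEmbedding (fun p : ℝ × ℝ => G p.1 * 1)
    (Set.Ioo 0 (2 * Real.pi) ×ˢ Set.Ioo 0 (2 * Real.pi))
  have h2 : Complex.measurableEquivRealProd ⁻¹'
      (Set.Ioo 0 (2 * Real.pi) ×ˢ Set.Ioo 0 (2 * Real.pi)) = sq := by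
    ext z; rfl
  rw [h2] at h1
  have h3 : ∫ z in sq, G (Complex.measurableEquivRealProd z).1 * 1 = ∫ z in sq, G z.re := by
    congr 1; funext z; rw [mul_one]; rfl
  rw [h3] at h1
  rw [h1]
  have h4 := setIntegral_prod_mul (μ := (volume : Measure ℝ)) (ν := (volume : Measure ℝ))
    G (fun _ => (1 : ℝ)) (Set.Ioo 0 (2 * Real.pi)) (Set.Ioo 0 (2 * Real.pi))
  rw [← Measure.volume_eq_prod] at h4
  rw [h4, setIntegral_const, smul_eq_mul, mul_one, measureReal_def, Real.volume_Ioo, sub_zero,
    ENNReal.toReal_ofReal (by positivity), ← integral_Ioc_eq_integral_Ioo,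
    ← intervalIntegral.integral_of_le (by positivity)]

lemma sq_area : areaM sq (fun _ => 1) = volume.restrict sq := by
  unfold areaM
  simp

lemma sq_vol : (volume.restrict sq).real Set.univ = (2 * Real.pi) ^ 2 := by
  have h1 := sq_int (G := fun _ => 1)
  rw [integral_const, smul_eq_mul, mul_one, intervalIntegral.integral_const, smul_eq_mul, mul_one,
    sub_zero] at h1
  rw [h1]; ring

lemma sq_fin : volume.restrict sq Set.univ ≠ ⊤ := by
  intro h
  have h1 := sq_vol
  rw [measureReal_def, h, ENNReal.toReal_top] at h1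
  have := Real.pi_pos
  have h2 : (0 : ℝ) < (2 * Real.pi) ^ 2 := by positivity
  linarith

lemma sq_pos : volume.restrict sq Set.univ ≠ 0 := by
  intro h
  have h1 := sq_vol
  rw [measureReal_def, h, ENNReal.toReal_zero] at h1
  have := Real.pi_pos
  have h2 : (0 : ℝ) < (2 * Real.pi) ^ 2 := by positivity
  linarith

/-- all the laws are the arcsine law -/
lemma sq_law {g : ℝ → ℝ} (hg : Continuous g) {n : ℕ} (hn : 0 < n) :
    ∫ x, g x ∂(lawM sq (fun _ => 1) (wave n)) = ∫ x, g x ∂arcs := by
  have hpi := Real.pi_pos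
  have n0 : (0 : ℝ) < n := by exact_mod_cast hn
  have cw : Continuous (wave n) := (wave_smooth n).continuous
  rw [lawM, integral_map cw.measurable.aemeasurable hg.aestronglyMeasurable,
    integral_smul_measure, sq_area, ENNReal.toReal_inv, arcs_int hg]
  have e1 : (volume.restrict sq Set.univ).toReal = (2 * Real.pi) ^ 2 := sq_vol
  have e2 : ∫ z in sq, g (wave n z) =
      (∫ x in (0 : ℝ)..(2 * Real.pi), g (Real.cos (n * x))) * (2 * Real.pi) :=
    sq_int (G := fun x => g (Real.cos (n * x)))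
  rw [e1, e2, smul_eq_mul]
  have per : Periodic (fun t => g (Real.cos t)) (2 * Real.pi) := fun x => by
    show g (Real.cos _) = g (Real.cos x); rw [Real.cos_add_two_pi]
  have cg : Continuous (fun t => g (Real.cos t)) := hg.comp Real.continuous_cos
  have e3 : ∫ x in (0 : ℝ)..(2 * Real.pi), g (Real.cos (n * x)) =
      ∫ t in (0 : ℝ)..(2 * Real.pi), g (Real.cos t) := by
    rw [intervalIntegral.integral_comp_mul_left (f := fun t => g (Real.cos t)) n0.ne', mul_zero]
    have h1 := per.intervalIntegral_add_zsmul_eq (n : ℤ) 0 fun a b => cg.intervalIntegrable a b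
    have h2 : (0 : ℝ) + (n : ℤ) • (2 * Real.pi) = n * (2 * Real.pi) := by
      simp
    rw [h2, zero_add] at h1
    rw [h1]
    simp only [zsmul_eq_mul, Int.cast_natCast, smul_eq_mul]
    field_simp
  rw [e3]
  field_simp

lemma sq_prob (n : ℕ) : IsProbabilityMeasure (lawM sq (fun _ => 1) (wave n)) := by
  have cw : Continuous (wave n) := (wave_smooth n).continuous
  constructor
  rw [lawM, Measure.map_apply cw.measurable MeasurableSet.univ, Set.preimage_univ, sq_area,
    Measure.smul_apply, smul_eq_mul, ENNReal.inv_mul_cancel sq_pos sq_fin]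

lemma sq_le (n : ℕ) : ∀ᵐ x ∂(lawM sq (fun _ => 1) (wave n)), |x| ≤ 1 := by
  have cw : Continuous (wave n) := (wave_smooth n).continuous
  rw [lawM, ae_map_iff cw.measurable.aemeasurable
    (measurableSet_le continuous_abs.measurable measurable_const)]
  exact ae_of_all _ fun z => Real.abs_cos_le_one _

lemma sq_mom (n : ℕ) : Integrable (fun x => x ^ 2) (lawM sq (fun _ => 1) (wave n)) ∧
    ∫ x, x ^ 2 ∂(lawM sq (fun _ => 1) (wave n)) ≤ 1 := by
  have pr := sq_prob n
  have h1 : ∀ᵐ x ∂(lawM sq (fun _ => 1) (wave n)), ‖x ^ 2‖ ≤ 1 := by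
    filter_upwards [sq_le n] with x hx
    rw [Real.norm_eq_abs, abs_pow]
    exact pow_le_one₀ (abs_nonneg _) hx
  refine ⟨Integrable.of_bound (continuous_pow 2).aestronglyMeasurable 1 h1, ?_⟩
  have h2 := norm_integral_le_of_norm_le_const h1
  rw [probReal_univ, mul_one] at h2
  exact (le_abs_self _).trans h2

lemma arcs_le : ∀ᵐ x ∂arcs, |x| ≤ 1 := by
  unfold arcs
  rw [ae_map_iff Real.measurable_cos.aemeasurable
    (measurableSet_le continuous_abs.measurable measurable_const)]
  exact ae_of_all _ fun x => Real.abs_cos_le_one x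

/-- the translations of the arcsine law -/
lemma arcs_trans {τ : ℝ} (hτ : 0 < τ) (hτ1 : τ ≤ 1) : √τ / 20 ≤
    |(wlaw arcs).real ((fun x => x + τ) ⁻¹' Set.Ioi 1) - (wlaw arcs).real (Set.Ioi 1)| := by
  have := arcs_prob
  have a1 : arcs (Set.Ioi 1) = 0 := by
    unfold arcs
    rw [Measure.map_apply Real.measurable_cos measurableSet_Ioi]
    have e : Real.cos ⁻¹' Set.Ioi 1 = ∅ := by
      ext x
      simp only [Set.mem_preimage, Set.mem_Ioi, Set.mem_empty_iff_false, iff_false, not_lt]
      exact Real.cos_le_one x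
    rw [e, measure_empty]
  have w1 : (wlaw arcs) (Set.Ioi 1) = 0 := by
    unfold wlaw
    exact withDensity_absolutelyContinuous _ _ a1
  have fw : IsFiniteMeasure (wlaw arcs) := by
    refine wlaw_fin (D := 1 * arcs.real Set.univ) fun N => ?_
    have h3 := norm_integral_le_of_norm_le_const (μ := arcs)
      (f := fun x => cut N x * (|x| * √|x|)) (C := 1) (by
        filter_upwards [arcs_le] with x hx
        rw [Real.norm_eq_abs, abs_of_nonneg (mul_nonneg (cut_0 N x) (by positivity))]
        have h5 : √|x| ≤ 1 := by rw [Real.sqrt_le_one]; exact hx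
        have h6 : |x| * √|x| ≤ 1 := mul_le_one₀ hx (Real.sqrt_nonneg _) h5
        exact mul_le_one₀ (cut_1 N x) (by positivity) h6)
    exact (le_abs_self _).trans h3
  rw [measureReal_def (s := Set.Ioi 1), w1, ENNReal.toReal_zero, sub_zero]
  refine le_trans ?_ (le_abs_self _)
  have sub : Set.Icc (1 - τ / 2) 1 ⊆ (fun x => x + τ) ⁻¹' Set.Ioi (1 : ℝ) := fun x hx => by
    show 1 < x + τ
    have := hx.1
    linarith
  refine le_trans ?_ (measureReal_mono sub)
  have iW : IntegrableOn (fun x : ℝ => |x| * √|x|) (Set.Icc (1 - τ / 2) 1) arcs :=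
    W_co.continuousOn.integrableOn_compact isCompact_Icc
  have e1 : (wlaw arcs).real (Set.Icc (1 - τ / 2) 1) =
      ∫ x in Set.Icc (1 - τ / 2) 1, |x| * √|x| ∂arcs := by
    rw [measureReal_def]
    unfold wlaw
    rw [withDensity_apply _ measurableSet_Icc, ← ofReal_integral_eq_lintegral_ofReal iW
      (ae_of_all _ fun x => by positivity),
      ENNReal.toReal_ofReal (integral_nonneg fun x => by positivity)]
  rw [e1]
  have h1 : ∫ _ in Set.Icc (1 - τ / 2) 1, (1 / 2 * √(1 / 2) : ℝ) ∂arcs ≤
      ∫ x in Set.Icc (1 - τ / 2) 1, |x| * √|x| ∂arcs := by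
    refine setIntegral_mono_on (integrableOn_const (measure_ne_top _ _)) iW
      measurableSet_Icc fun x hx => ?_
    have hx1 : (1 / 2 : ℝ) ≤ |x| := by
      refine le_trans ?_ (le_abs_self x)
      have := hx.1
      linarith
    exact mul_le_mul hx1 (Real.sqrt_le_sqrt hx1) (Real.sqrt_nonneg _) (abs_nonneg _)
  refine le_trans ?_ h1
  rw [setIntegral_const, smul_eq_mul]
  have h2 : √(τ / 2) / 5 ≤ arcs.real (Set.Icc (1 - τ / 2) 1) :=
    arcs_mass (by positivity) (by linarith)
  refine le_trans (le_of_eq ?_) (mul_le_mul_of_nonneg_right h2 (by positivity))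
  have h3 : √(τ / 2) * √(1 / 2) = √τ / 2 := by
    rw [← Real.sqrt_mul (by positivity)]
    have : τ / 2 * (1 / 2) = τ / 2 ^ 2 := by ring
    rw [this, Real.sqrt_div hτ.le, Real.sqrt_sq (by norm_num)]
  calc √τ / 20 = 1 / 10 * (√τ / 2) := by ring
    _ = 1 / 10 * (√(τ / 2) * √(1 / 2)) := by rw [h3]
    _ = √(τ / 2) / 5 * (1 / 2 * √(1 / 2)) := by ring

end

end Pool.Agent.Helper99.HD
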