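import Pool.Graph.R_pool_sql_team_seeded_b677cdb8.E8helper19.LW.Pt

/-!
The pointwise inequality along a line for signed functions `g`, with the weight
`|s + r|^(3/2) s² / (s² + r²)` (smoothed), `s` and `r` the two pure second derivatives.
-/

set_option autoImplicit false
open Real

namespace Pool.Agent.Helper99.HD

open Pool.Agent.E8helper19.LW

noncomputable section

/-- `|x|^(3/2)`, smoothed -/
def af (κ x : ℝ) : ℝ := x ^ 2 / √(Ef κ x)

def Df (κ s r : ℝ) : ℝ := s ^ 2 + r ^ 2 + κ ^ 2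

/-- the weight -/
def Wf (κ s r : ℝ) : ℝ := af κ (s + r) * (s ^ 2 / Df κ s r)

variable {δ κ : ℝ}

lemma Df_pos (hκ : 0 < κ) (s r : ℝ) : 0 < Df κ s r := by unfold Df; positivity

lemma af_deriv (hκ : 0 < κ) (x : ℝ) :
    HasDerivAt (af κ) (2 * x / √(Ef κ x) - x ^ 3 / (2 * (Ef κ x) ^ 2 * √(Ef κ x))) x := by
  have h1 := Ef_pos hκ x
  have s1 : 0 < √(Ef κ x) := sqrt_pos.2 h1
  have h2 := (hasDerivAt_pow 2 x).fun_div ((Ef_deriv hκ x).sqrt h1.ne') s1.ne'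
  refine HasDerivAt.congr_deriv (f := af κ) h2 ?_
  obtain ⟨e, he⟩ : ∃ e, e = √(Ef κ x) := ⟨_, rfl⟩
  have ee : Ef κ x = e ^ 2 := by rw [he, sq_sqrt h1.le]
  rw [← he] at s1 ⊢
  rw [ee]
  push_cast
  field_simp

/-- the basic quantities: `e = E(s+r)^(1/2)`, `b = D^(1/4)`, `k = E(s)^(1/2)` -/
lemma basic (hκ : 0 < κ) (s r : ℝ) : ∃ e b k : ℝ, 0 < e ∧ 0 < b ∧ 0 < k ∧
    e = √(Ef κ (s + r)) ∧ k = √(Ef κ s) ∧ Df κ s r = b ^ 4 ∧ Ef κ s = k ^ 2 ∧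
    Ef κ (s + r) = e ^ 2 ∧ |s + r| ≤ e ^ 2 ∧ e ≤ 6 / 5 * b ∧ k ≤ b ∧ |s| ≤ k ^ 2 := by
  have h1 := Ef_pos hκ (s + r)
  have h2 := Ef_pos hκ s
  have h3 := Df_pos hκ s r
  refine ⟨√(Ef κ (s + r)), √(√(Df κ s r)), √(Ef κ s), sqrt_pos.2 h1, by positivity,
    sqrt_pos.2 h2, rfl, rfl, ?_, (sq_sqrt h2.le).symm, (sq_sqrt h1.le).symm, ?_, ?_, ?_, ?_⟩
  · have : √(√(Df κ s r)) ^ 4 = (√(√(Df κ s r)) ^ 2) ^ 2 := by ring
    rw [this, sq_sqrt (sqrt_nonneg _), sq_sqrt h3.le]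
  · rw [sq_sqrt h1.le]; exact abs_le_Ef hκ _
  · have b0 : 0 < √(√(Df κ s r)) := by positivity
    have b4 : √(√(Df κ s r)) ^ 4 = Df κ s r := by
      have : √(√(Df κ s r)) ^ 4 = (√(√(Df κ s r)) ^ 2) ^ 2 := by ring
      rw [this, sq_sqrt (sqrt_nonneg _), sq_sqrt h3.le]
    have e4 : √(Ef κ (s + r)) ^ 4 = (s + r) ^ 2 + κ ^ 2 := by
      have : √(Ef κ (s + r)) ^ 4 = (√(Ef κ (s + r)) ^ 2) ^ 2 := by ring
      rw [this, sq_sqrt h1.le, Ef_sq]
    refine le_of_pow_le_pow_left₀ (n := 4) (by norm_num) (by positivity) ?_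
    rw [mul_pow, e4, b4]
    unfold Df
    nlinarith [sq_nonneg (s - r), sq_nonneg s, sq_nonneg r, sq_nonneg κ]
  · refine sqrt_le_sqrt ?_
    unfold Ef Df
    exact sqrt_le_sqrt (by nlinarith [sq_nonneg r])
  · rw [sq_sqrt h2.le]; exact abs_le_Ef hκ _

/-- the bounds of `af` and of its derivative -/
lemma af_bd {e x E : ℝ} (he : 0 < e) (hE : E = e ^ 2) (hx : |x| ≤ e ^ 2) :
    |x ^ 2 / e| ≤ e ^ 3 ∧ |2 * x / e - x ^ 3 / (2 * E ^ 2 * e)| ≤ 2 * e := by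
  have x2 : x ^ 2 ≤ e ^ 4 := by
    rw [← sq_abs]; calc |x| ^ 2 ≤ (e ^ 2) ^ 2 := pow_le_pow_left₀ (abs_nonneg _) hx 2
      _ = e ^ 4 := by ring
  constructor
  · rw [abs_of_nonneg (by positivity), div_le_iff₀ he]
    calc x ^ 2 ≤ e ^ 4 := x2
      _ = e ^ 3 * e := by ring
  · rw [hE]
    have e1 : 2 * x / e - x ^ 3 / (2 * (e ^ 2) ^ 2 * e) = x / e * (2 - x ^ 2 / (2 * e ^ 4)) := by
      field_simp
    rw [e1, abs_mul]
    have a1 : |x / e| ≤ e := by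
      rw [abs_div, abs_of_pos he, div_le_iff₀ he]
      calc |x| ≤ e ^ 2 := hx
        _ = e * e := by ring
    have a2 : |2 - x ^ 2 / (2 * e ^ 4)| ≤ 2 := by
      have h1 : 0 ≤ x ^ 2 / (2 * e ^ 4) := by positivity
      have h2 : x ^ 2 / (2 * e ^ 4) ≤ 1 := by
        rw [div_le_one (by positivity)]; nlinarith [pow_pos he 4]
      rw [abs_le]; constructor <;> linarith
    calc |x / e| * |2 - x ^ 2 / (2 * e ^ 4)| ≤ e * 2 :=
          mul_le_mul a1 a2 (abs_nonneg _) he.le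
      _ = 2 * e := by ring

/-- the weight: bounds and derivative along a line -/
lemma Wf_bd (hκ : 0 < κ) (s r : ℝ) :
    0 ≤ Wf κ s r ∧ Wf κ s r ≤ 44 / 25 * (s ^ 2 / √(Ef κ s)) := by
  obtain ⟨e, b, k, e0, b0, k0, he, hk, hD, hEk, hEe, hx, heb, hkb, hsk⟩ := basic hκ s r
  have h1 := Ef_pos hκ (s + r)
  have h3 := Df_pos hκ s r
  constructor
  · unfold Wf af; positivity
  · unfold Wf af
    rw [← he, ← hk, hD]
    obtain ⟨a1, -⟩ := af_bd e0 hEe hx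
    have a2 : (s + r) ^ 2 / e ≤ 44 / 25 * b ^ 3 := by
      have h4 := (le_abs_self _).trans a1
      have h5 : e ^ 3 ≤ (6 / 5 * b) ^ 3 := pow_le_pow_left₀ e0.le heb 3
      have h6 : (6 / 5 * b) ^ 3 ≤ 44 / 25 * b ^ 3 := by
        rw [mul_pow]; nlinarith [pow_pos b0 3]
      linarith
    have a3 := mul_le_mul_of_nonneg_right a2 (by positivity : 0 ≤ s ^ 2 / b ^ 4)
    refine a3.trans ?_
    have a4 : 44 / 25 * b ^ 3 * (s ^ 2 / b ^ 4) = 44 / 25 * (s ^ 2 / b) := by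
      field_simp
    rw [a4]
    refine mul_le_mul_of_nonneg_left ?_ (by norm_num)
    exact div_le_div_of_nonneg_left (sq_nonneg s) k0 hkb

/-- the derivative of the weight along a line -/
lemma Wf_line (hκ : 0 < κ) {h : ℝ} (hh : 0 < h) {s r : ℝ → ℝ} {q w t : ℝ}
    (hs : HasDerivAt s (q / h) t) (hr : HasDerivAt r (w / h) t) :
    ∃ d, HasDerivAt (fun x => Wf κ (s x) (r x)) d t ∧
      |h * d| ≤ √(Ef κ (s t)) * (6 * |q| + 5 * |w|) := by
  obtain ⟨e, b, k, e0, b0, k0, he, hk, hD, hEk, hEe, hx, heb, hkb, hsk⟩ := basic hκ (s t) (r t)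
  have hD' : HasDerivAt (fun x => Df κ (s x) (r x))
      (2 * s t * (q / h) + 2 * r t * (w / h)) t := by
    have := ((hs.fun_pow 2).add (hr.fun_pow 2)).add_const (κ ^ 2)
    refine HasDerivAt.congr_deriv (f := fun x => Df κ (s x) (r x)) this ?_
    push_cast; ring
  have hS : HasDerivAt (fun x => s x ^ 2) (2 * s t * (q / h)) t := by
    refine (hs.fun_pow 2).congr_deriv ?_
    push_cast; ring
  have hB := hS.fun_div hD' (Df_pos hκ _ _).ne'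
  have hA : HasDerivAt (fun x => af κ (s x + r x)) ((2 * (s t + r t) / √(Ef κ (s t + r t)) -
      (s t + r t) ^ 3 / (2 * (Ef κ (s t + r t)) ^ 2 * √(Ef κ (s t + r t)))) * (q / h + w / h)) t := by
    have h1 : HasDerivAt (fun x => s x + r x) (q / h + w / h) t := hs.fun_add hr
    have h2 : HasDerivAt (af κ) _ ((fun x => s x + r x) t) := af_deriv hκ (s t + r t)
    exact h2.comp t h1
  have dd := hA.fun_mul hB
  refine ⟨_, dd, ?_⟩
  obtain ⟨a', ha'⟩ : ∃ a', a' = 2 * (s t + r t) / √(Ef κ (s t + r t)) -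
    (s t + r t) ^ 3 / (2 * (Ef κ (s t + r t)) ^ 2 * √(Ef κ (s t + r t))) := ⟨_, rfl⟩
  obtain ⟨a, ha⟩ : ∃ a, a = af κ (s t + r t) := ⟨_, rfl⟩
  rw [← ha', ← ha, ← hk, hD]
  have A1 : |a| ≤ 44 / 25 * b ^ 3 := by
    have h4 := (af_bd e0 hEe hx).1
    have h5 : e ^ 3 ≤ (6 / 5 * b) ^ 3 := pow_le_pow_left₀ e0.le heb 3
    have h6 : (6 / 5 * b) ^ 3 ≤ 44 / 25 * b ^ 3 := by
      rw [mul_pow]; nlinarith [pow_pos b0 3]
    rw [ha]; unfold af; rw [← he]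
    linarith
  have A2 : |a'| ≤ 12 / 5 * b := by
    have h4 := (af_bd e0 hEe hx).2
    rw [ha', ← he]
    linarith
  obtain ⟨S, hS'⟩ : ∃ S, S = s t := ⟨_, rfl⟩
  obtain ⟨R, hR'⟩ : ∃ R, R = r t := ⟨_, rfl⟩
  rw [← hS', ← hR'] at hD ⊢
  rw [← hS'] at hsk
  have hDS : b ^ 4 = S ^ 2 + R ^ 2 + κ ^ 2 := by rw [← hD]; rfl
  -- the two parts
  have key : h * (a' * (q / h + w / h) * (S ^ 2 / b ^ 4) + a * ((2 * S * (q / h) * b ^ 4 -
      S ^ 2 * (2 * S * (q / h) + 2 * R * (w / h))) / (b ^ 4) ^ 2)) =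
      a' * (S ^ 2 / b ^ 4) * (q + w) + a * (2 * S * (R ^ 2 + κ ^ 2) / b ^ 8) * q -
        a * (2 * R * S ^ 2 / b ^ 8) * w := by
    have : R ^ 2 + κ ^ 2 = b ^ 4 - S ^ 2 := by rw [hDS]; ring
    rw [this]
    field_simp
    ring
  have goal' : |h * (a' * (q / h + w / h) * (S ^ 2 / b ^ 4) + a * ((2 * S * (q / h) * b ^ 4 -
      S ^ 2 * (2 * S * (q / h) + 2 * R * (w / h))) / (b ^ 4) ^ 2))| ≤ k * (6 * |q| + 5 * |w|) := by
    rw [key]
    have c1 : |a' * (S ^ 2 / b ^ 4)| ≤ 12 / 5 * k := by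
      rw [abs_mul, abs_of_nonneg (by positivity : 0 ≤ S ^ 2 / b ^ 4)]
      have h1 : S ^ 2 / b ^ 4 ≤ k / b := by
        rw [div_le_div_iff₀ (by positivity) b0]
        have h2 : S ^ 2 ≤ k ^ 4 := by
          rw [← sq_abs]; calc |S| ^ 2 ≤ (k ^ 2) ^ 2 := pow_le_pow_left₀ (abs_nonneg _) hsk 2
            _ = k ^ 4 := by ring
        have h3 : k ^ 3 ≤ b ^ 3 := pow_le_pow_left₀ k0.le hkb 3
        calc S ^ 2 * b ≤ k ^ 4 * b := mul_le_mul_of_nonneg_right h2 b0.le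
          _ = k * b * k ^ 3 := by ring
          _ ≤ k * b * b ^ 3 := mul_le_mul_of_nonneg_left h3 (by positivity)
          _ = k * b ^ 4 := by ring
      calc |a'| * (S ^ 2 / b ^ 4) ≤ 12 / 5 * b * (k / b) :=
            mul_le_mul A2 h1 (by positivity) (by positivity)
        _ = 12 / 5 * k := by field_simp
    have Sk : |S| / b ≤ k := by
      rw [div_le_iff₀ b0]
      calc |S| ≤ k ^ 2 := hsk
        _ = k * k := by ring
        _ ≤ k * b := mul_le_mul_of_nonneg_left hkb k0.le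
    have c2 : |a * (2 * S * (R ^ 2 + κ ^ 2) / b ^ 8)| ≤ 88 / 25 * k := by
      rw [abs_mul]
      have h1 : |2 * S * (R ^ 2 + κ ^ 2) / b ^ 8| ≤ 2 * |S| / b ^ 4 := by
        rw [abs_div, abs_of_pos (by positivity : 0 < b ^ 8), abs_mul, abs_mul, abs_two,
          abs_of_nonneg (by positivity : 0 ≤ R ^ 2 + κ ^ 2),
          div_le_div_iff₀ (by positivity) (by positivity)]
        have h2 : R ^ 2 + κ ^ 2 ≤ b ^ 4 := by rw [hDS]; nlinarith [sq_nonneg S]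
        have h3 := mul_le_mul_of_nonneg_left h2 (by positivity : 0 ≤ 2 * |S| * b ^ 4)
        calc 2 * |S| * (R ^ 2 + κ ^ 2) * b ^ 4 = 2 * |S| * b ^ 4 * (R ^ 2 + κ ^ 2) := by ring
          _ ≤ 2 * |S| * b ^ 4 * b ^ 4 := h3
          _ = 2 * |S| * b ^ 8 := by ring
      calc |a| * |2 * S * (R ^ 2 + κ ^ 2) / b ^ 8| ≤ 44 / 25 * b ^ 3 * (2 * |S| / b ^ 4) :=
            mul_le_mul A1 h1 (abs_nonneg _) (by positivity)
        _ = 88 / 25 * (|S| / b) := by field_simp; ring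
        _ ≤ 88 / 25 * k := mul_le_mul_of_nonneg_left Sk (by norm_num)
    have c3 : |a * (2 * R * S ^ 2 / b ^ 8)| ≤ 44 / 25 * k := by
      rw [abs_mul]
      have h1 : |2 * R * S ^ 2 / b ^ 8| ≤ |S| / b ^ 4 := by
        rw [abs_div, abs_of_pos (by positivity : 0 < b ^ 8), abs_mul, abs_mul, abs_two,
          abs_of_nonneg (sq_nonneg S), div_le_div_iff₀ (by positivity) (by positivity), ← sq_abs S]
        have h2 : 2 * |R| * |S| ≤ b ^ 4 := by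
          rw [hDS, ← sq_abs S, ← sq_abs R]; nlinarith [sq_nonneg (|R| - |S|), sq_nonneg κ]
        have h3 := mul_le_mul_of_nonneg_left h2 (by positivity : 0 ≤ |S| * b ^ 4)
        calc 2 * |R| * |S| ^ 2 * b ^ 4 = |S| * b ^ 4 * (2 * |R| * |S|) := by ring
          _ ≤ |S| * b ^ 4 * b ^ 4 := h3
          _ = |S| * b ^ 8 := by ring
      calc |a| * |2 * R * S ^ 2 / b ^ 8| ≤ 44 / 25 * b ^ 3 * (|S| / b ^ 4) :=
            mul_le_mul A1 h1 (abs_nonneg _) (by positivity)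
        _ = 44 / 25 * (|S| / b) := by field_simp
        _ ≤ 44 / 25 * k := mul_le_mul_of_nonneg_left Sk (by norm_num)
    have d1 : |a' * (S ^ 2 / b ^ 4) * (q + w)| ≤ 12 / 5 * k * (|q| + |w|) := by
      rw [abs_mul]; exact mul_le_mul c1 (abs_add_le _ _) (abs_nonneg _) (by positivity)
    have d2 : |a * (2 * S * (R ^ 2 + κ ^ 2) / b ^ 8) * q| ≤ 88 / 25 * k * |q| := by
      rw [abs_mul]; exact mul_le_mul_of_nonneg_right c2 (abs_nonneg _)
    have d3 : |a * (2 * R * S ^ 2 / b ^ 8) * w| ≤ 44 / 25 * k * |w| := by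
      rw [abs_mul]; exact mul_le_mul_of_nonneg_right c3 (abs_nonneg _)
    have d4 := abs_sub (a' * (S ^ 2 / b ^ 4) * (q + w) +
      a * (2 * S * (R ^ 2 + κ ^ 2) / b ^ 8) * q) (a * (2 * R * S ^ 2 / b ^ 8) * w)
    have d5 := abs_add_le (a' * (S ^ 2 / b ^ 4) * (q + w))
      (a * (2 * S * (R ^ 2 + κ ^ 2) / b ^ 8) * q)
    have n1 : 0 ≤ k * |q| := by positivity
    have n2 : 0 ≤ k * |w| := by positivity
    linarith
  exact goal'

end

end Pool.Agent.Helper99.HD
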