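import Pool.Graph.R_pool_sql_team_seeded_b677cdb8.E8helper19.LW.Uni3
import Pool.Agent.Helper99.HD.En

/-!
The inequality `|∫ φ g(u) |u|^(3/2) dvol| ≤ √δ (16 (∫ φ dvol)^(1/2) (∫ φ u² dvol)^(1/2) + o(1))` for
signed `g` with `|g| ≤ 1` and `|∫_0^x g| ≤ δ`.
-/

set_option autoImplicit false
open MeasureTheory Filter Topology Complex
open scoped ContDiff ENNReal

namespace Pool.Agent.Helper99.HD

open Pool.Agent.W745.RW Pool.Agent.TH294.RS Pool.Agent.TH294.RG Pool.Agent.TH421.DF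
open Pool.Agent.TH421.AC Pool.Agent.Y139.PD Pool.Agent.E8helper19.LW
open Pool.Agent.Results.MP_a52643_an.AbsoluteContinuity

noncomputable section

variable {B : Set ℂ}

lemma lag {a b c d : ℝ} :
    (11 * a + 5 / 2 * c + (11 * b + 5 / 2 * d)) ^ 2 ≤ 256 * (a ^ 2 + b ^ 2 + (c ^ 2 + d ^ 2)) := by
  nlinarith [sq_nonneg (11 * b - 11 * a), sq_nonneg (11 * c - 5 / 2 * a),
    sq_nonneg (11 * d - 5 / 2 * a), sq_nonneg (11 * c - 5 / 2 * b),
    sq_nonneg (11 * d - 5 / 2 * b), sq_nonneg (5 / 2 * d - 5 / 2 * c), sq_nonneg a, sq_nonneg b,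
    sq_nonneg c, sq_nonneg d]

/-- both directions together -/
theorem U1s (hB : IsOpen B) {φ ρ : ℂ → ℝ} (hφ : TF B φ) (hφ0 : ∀ z, 0 ≤ φ z)
    (hρ : ContDiffOn ℝ ∞ ρ B) (ρ0 : ∀ z ∈ B, 0 < ρ z) :
    ∃ K : ℝ, 0 ≤ K ∧ ∀ (h : ℝ) (u : ℂ → ℝ), Sol B h ρ u → h ≤ 1 → ∀ (g : ℝ → ℝ) (δ : ℝ),
      ContDiff ℝ ∞ g → (∀ x, |g x| ≤ 1) → 0 < δ → (∀ x, |Pr g x| ≤ δ) →
      ∫ z, φ z * (g (u z) * (|u z| * √|u z|) * ρ z) ≤
        √δ * (16 * √((∫ z, φ z * ρ z) * ((∫ z, φ z * (ρ z * u z ^ 2)) +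
          h * K * ∫ z in tsupport φ, e3 h u z)) +
        h * K * ((∫ z in tsupport φ, (1 : ℝ)) + ∫ z in tsupport φ, e3 h u z)) := by
  obtain ⟨S, hS⟩ : ∃ S : Set ℂ, S = tsupport φ := ⟨_, rfl⟩
  have hSc : IsCompact S := by rw [hS]; exact hφ.2.1
  have hSB : S ⊆ B := by rw [hS]; exact hφ.2.2
  have z0 : ∀ z, z ∉ S → φ z = 0 := fun z hz => image_eq_zero_of_notMem_tsupport (by rwa [hS] at hz)
  have cφ : Continuous φ := hφ.1.continuous
  obtain ⟨R, hR⟩ : ∃ R : ℂ → ℝ, R = fun z => (√(ρ z))⁻¹ := ⟨_, rfl⟩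
  have sR : ContDiffOn ℝ ∞ R B := by
    rw [hR]
    exact (hρ.sqrt fun z hz => (ρ0 z hz).ne').inv fun z hz => (Real.sqrt_pos.2 (ρ0 z hz)).ne'
  have sR4 : ContDiffOn ℝ ∞ (fun z => R z ^ 4) B := sR.pow 4
  obtain ⟨χ, hχ⟩ : ∃ χ : ℂ → ℝ, χ = fun z => φ z * R z := ⟨_, rfl⟩
  obtain ⟨ψ, hψ⟩ : ∃ ψ : ℂ → ℝ, ψ = fun z => φ z * R z ^ 4 := ⟨_, rfl⟩
  have Tχ : TF B χ := by rw [hχ]; exact TF.mulc hB hφ sR
  have Tψ : TF B ψ := by rw [hψ]; exact TF.mulc hB hφ sR4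
  have Rn : ∀ z, 0 ≤ R z := fun z => by rw [hR]; positivity
  have χ0 : ∀ z, 0 ≤ χ z := fun z => by rw [hχ]; exact mul_nonneg (hφ0 z) (Rn z)
  have ψ0 : ∀ z, 0 ≤ ψ z := fun z => by
    rw [hψ]; exact mul_nonneg (hφ0 z) (pow_nonneg (Rn z) 4)
  obtain ⟨K3, K30, H3⟩ := L3b hB Tψ ψ0 hρ (v := 1) (Or.inl rfl)
  obtain ⟨K4, K40, H4⟩ := L3b hB Tψ ψ0 hρ (v := I) (Or.inr rfl)
  obtain ⟨K2, K20, H2⟩ := L2 hB hφ hφ0 hρ ρ0
  have sχ' : ∀ v : ℂ, Continuous (fun z => fderiv ℝ χ z v) := fun v =>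
    ((Tχ.1.fderiv_right (m := ∞) le_rfl).clm_apply contDiff_const).continuous
  have χS : tsupport χ ⊆ S := by rw [hχ, hS]; exact tsupp_mul _ _
  have ψS : tsupport ψ ⊆ S := by rw [hψ, hS]; exact tsupp_mul _ _
  have z1 : ∀ v z, z ∉ S → fderiv ℝ χ z v = 0 := fun v z hz => by
    rw [fderiv_of_notMem_tsupport ℝ (fun h => hz (χS h))]; rfl
  have zχ : ∀ z, z ∉ S → χ z = 0 := fun z hz => by
    rw [hχ]; show φ z * _ = 0; rw [z0 z hz, zero_mul]
  obtain ⟨M, M1, hM⟩ := bds hSc [fun z => fderiv ℝ χ z 1, fun z => fderiv ℝ χ z I] (by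
    simp only [List.mem_cons, List.not_mem_nil, or_false, forall_eq_or_imp, forall_eq]
    exact ⟨(sχ' 1).continuousOn, (sχ' I).continuousOn⟩)
  simp only [List.mem_cons, List.not_mem_nil, or_false, forall_eq_or_imp, forall_eq] at hM
  obtain ⟨hM1, hM2⟩ := hM
  refine ⟨K3 + K4 + K2 + 18 * M, by positivity, fun h u hu h1 g δ hg g1 hδ hge => ?_⟩
  have hp := hu.hp
  have s0 := hu.su
  have s1 := fun v => d_sm hB s0 h v
  have s2 := fun v => d_sm hB (s1 v) h v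
  have s3 := fun w v => d_sm hB (s2 v) h w
  have ce3 : ContinuousOn (e3 h u) B := e3_co hB s0
  have ce2 : ContinuousOn (e2 h u) B := e2_co hB s0
  obtain ⟨E, hE⟩ : ∃ E : ℝ, E = ∫ z in S, e3 h u z := ⟨_, rfl⟩
  have E0 : 0 ≤ E := by rw [hE]; exact integral_nonneg fun z => e3_nonneg h u z
  have E3le : ∫ z in tsupport ψ, e3 h u z ≤ E := by
    rw [hE]; exact int_sub hSc hSB ψS ce3 ce3 (e3_nonneg h u) fun z => le_rfl
  have E2le : ∫ z in tsupport φ, e2 h u z ≤ E := by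
    rw [hE, ← hS]; exact int_sub hSc hSB subset_rfl ce2 ce3 (e2_nonneg h u) (e2_le_e3 h u)
  have F3 := H3 h u hu h1
  have F4 := H4 h u hu h1
  have F2 := H2 h u hu
  have sδ : 0 ≤ √δ := Real.sqrt_nonneg δ
  rw [← hS, ← hE]
  -- the boundary terms
  have q1 : ∀ v : ℂ, (v = 1 ∨ v = I) → ∫ z, |fderiv ℝ χ z v * d h v (d h v u) z| ≤
      M * ((∫ z in S, (1 : ℝ)) + E) := by
    intro v hv
    have hMv : ∀ z ∈ S, |fderiv ℝ χ z v| ≤ M := by
      rcases hv with rfl | rfl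
      · exact hM1
      · exact hM2
    refine l1_bd hSc (sχ' v).continuousOn hMv (by linarith) (z1 v) ((s2 v).continuousOn.mono hSB) ?_
    rw [hE]
    refine int_sub (B := B) hSc hSB subset_rfl ((s2 v).continuousOn.pow 2) ce3
      (fun z => sq_nonneg _) fun z => ?_
    have := e3_ge h u hv z
    nlinarith [sq_nonneg (u z), sq_nonneg (d h v u z), sq_nonneg (d h 1 (d h v (d h v u)) z),
      sq_nonneg (d h I (d h v (d h v u)) z)]
  have S0 : 0 ≤ ∫ z in S, (1 : ℝ) := integral_nonneg fun z => zero_le_one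
  have cφS := cφ.continuousOn (s := S)
  have cR := sR.continuousOn.mono hSB
  have cρ := hρ.continuousOn.mono hSB
  have c3 := fun w v => (s3 w v).continuousOn.mono hSB
  have c2 := fun v => (s2 v).continuousOn.mono hSB
  have rr : ∀ z ∈ B, 0 < √(ρ z) ∧ R z = (√(ρ z))⁻¹ ∧ ρ z = √(ρ z) ^ 2 := fun z hz =>
    ⟨Real.sqrt_pos.2 (ρ0 z hz), by rw [hR], (Real.sq_sqrt (ρ0 z hz).le).symm⟩
  have iA : Integrable (fun z => φ z * ρ z) := rint hSc (cφS.mul cρ) fun z hz => by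
    rw [z0 z hz, zero_mul]
  have cχS : ContinuousOn χ S := Tχ.1.continuous.continuousOn
  have cψS : ContinuousOn ψ S := Tψ.1.continuous.continuousOn
  have zψ : ∀ z, z ∉ S → ψ z = 0 := fun z hz => by
    rw [hψ]; show φ z * _ = 0; rw [z0 z hz, zero_mul]
  obtain ⟨Q1, hQ1⟩ : ∃ Q1 : ℂ → ℝ, Q1 = fun z => d h 1 (d h 1 (d h 1 u)) z ^ 2 +
    d h I (d h 1 (d h 1 u)) z ^ 2 := ⟨_, rfl⟩
  obtain ⟨Q2, hQ2⟩ : ∃ Q2 : ℂ → ℝ, Q2 = fun z => d h 1 (d h I (d h I u)) z ^ 2 +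
    d h I (d h I (d h I u)) z ^ 2 := ⟨_, rfl⟩
  have cQ1 : ContinuousOn Q1 S := by rw [hQ1]; exact ((c3 1 1).pow 2).add ((c3 I 1).pow 2)
  have cQ2 : ContinuousOn Q2 S := by rw [hQ2]; exact ((c3 1 I).pow 2).add ((c3 I I).pow 2)
  have iQ1 : Integrable (fun z => ψ z * Q1 z) := rint hSc (cψS.mul cQ1) fun z hz => by
    rw [zψ z hz, zero_mul]
  have iQ2 : Integrable (fun z => ψ z * Q2 z) := rint hSc (cψS.mul cQ2) fun z hz => by
    rw [zψ z hz, zero_mul]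
  have A0 : 0 ≤ ∫ z, φ z * ρ z := integral_nonneg fun z => by
    show 0 ≤ φ z * ρ z
    by_cases hz : z ∈ B
    · exact mul_nonneg (hφ0 z) (ρ0 z hz).le
    · rw [z0 z fun h => hz (hSB h), zero_mul]
  have Q1n : ∀ z, 0 ≤ Q1 z := fun z => by rw [hQ1]; positivity
  have Q2n : ∀ z, 0 ≤ Q2 z := fun z => by rw [hQ2]; positivity
  -- the total energy
  have en : (∫ z, ψ z * Q1 z) + (∫ z, ψ z * Q2 z) ≤ (∫ z, φ z * (ρ z * u z ^ 2)) +
      h * (K3 + K4 + K2 + 18 * M) * E := by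
    have f1 : ∫ z, ψ z * Q1 z ≤ (∫ z, ψ z * (ρ z * d h 1 (d h 1 u) z ^ 2)) + h * K3 * E := by
      rw [hQ1]
      refine F3.trans (add_le_add_right (mul_le_mul_of_nonneg_left E3le (by positivity)) _)
    have f2 : ∫ z, ψ z * Q2 z ≤ (∫ z, ψ z * (ρ z * d h I (d h I u) z ^ 2)) + h * K4 * E := by
      rw [hQ2]
      refine F4.trans (add_le_add_right (mul_le_mul_of_nonneg_left E3le (by positivity)) _)
    have j : ∀ v, Integrable (fun z => ψ z * (ρ z * d h v (d h v u) z ^ 2)) := fun v =>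
      rint hSc (cψS.mul (cρ.mul ((c2 v).pow 2))) fun z hz => by rw [zψ z hz, zero_mul]
    have f3 : (∫ z, ψ z * (ρ z * d h 1 (d h 1 u) z ^ 2)) +
        (∫ z, ψ z * (ρ z * d h I (d h I u) z ^ 2)) =
        ∫ z, φ z * ((ρ z)⁻¹ * (d h 1 (d h 1 u) z ^ 2 + d h I (d h I u) z ^ 2)) := by
      rw [← integral_add (j 1) (j I)]
      congr 1
      funext z
      by_cases hz : z ∈ B
      · obtain ⟨r0, r1, r2⟩ := rr z hz
        have e4 : R z ^ 4 * ρ z = (ρ z)⁻¹ := by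
          rw [r1, r2, Real.sqrt_sq r0.le]
          field_simp
        have e5 : ψ z = φ z * R z ^ 4 := by rw [hψ]
        rw [e5, ← e4]; ring
      · rw [z0 z fun h => hz (hSB h), zψ z fun h => hz (hSB h)]; ring
    have t2 : h * K2 * ∫ z in tsupport φ, e2 h u z ≤ h * K2 * E :=
      mul_le_mul_of_nonneg_left E2le (by positivity)
    have t3 : 0 ≤ h * (18 * M) * E := by positivity
    linarith
  -- the Cauchy-Schwarz inequality
  obtain ⟨L1, hL1⟩ : ∃ L1 : ℂ → ℝ, L1 = fun z => 11 * |d h 1 (d h 1 (d h 1 u)) z| +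
    5 / 2 * |d h 1 (d h I (d h I u)) z| := ⟨_, rfl⟩
  obtain ⟨L2', hL2⟩ : ∃ L2' : ℂ → ℝ, L2' = fun z => 11 * |d h I (d h I (d h I u)) z| +
    5 / 2 * |d h I (d h 1 (d h 1 u)) z| := ⟨_, rfl⟩
  have cL1 : ContinuousOn L1 S := by
    rw [hL1]
    exact (continuousOn_const.mul (c3 1 1).abs).add (continuousOn_const.mul (c3 1 I).abs)
  have cL2 : ContinuousOn L2' S := by
    rw [hL2]
    exact (continuousOn_const.mul (c3 I I).abs).add (continuousOn_const.mul (c3 I 1).abs)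
  have iL1 : Integrable (fun z => χ z * L1 z) := rint hSc (cχS.mul cL1) fun z hz => by
    rw [zχ z hz, zero_mul]
  have iL2 : Integrable (fun z => χ z * L2' z) := rint hSc (cχS.mul cL2) fun z hz => by
    rw [zχ z hz, zero_mul]
  have cs : (∫ z, χ z * L1 z) + (∫ z, χ z * L2' z) ≤
      √((∫ z, φ z * ρ z) * (256 * ((∫ z, ψ z * Q1 z) + (∫ z, ψ z * Q2 z)))) := by
    have b0 : 0 ≤ 256 * ((∫ z, ψ z * Q1 z) + (∫ z, ψ z * Q2 z)) := by
      have n1 : 0 ≤ ∫ z, ψ z * Q1 z := integral_nonneg fun z => mul_nonneg (ψ0 z) (Q1n z)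
      have n2 : 0 ≤ ∫ z, ψ z * Q2 z := integral_nonneg fun z => mul_nonneg (ψ0 z) (Q2n z)
      positivity
    refine cs_real A0 b0 fun t ht => ?_
    have j1 := iA.const_mul (t / 2)
    have j2 := (iQ1.add iQ2).const_mul (1 / (2 * t) * 256)
    have e1 : (∫ z, ψ z * Q1 z) + (∫ z, ψ z * Q2 z) =
        ∫ z, ((fun z => ψ z * Q1 z) + fun z => ψ z * Q2 z) z := (integral_add iQ1 iQ2).symm
    rw [e1, ← mul_assoc, ← integral_const_mul, ← integral_const_mul, ← integral_add j1 j2,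
      ← integral_add iL1 iL2]
    refine integral_mono (iL1.add iL2) (j1.add j2) fun z => ?_
    show χ z * L1 z + χ z * L2' z ≤
      t / 2 * (φ z * ρ z) + 1 / (2 * t) * 256 * (ψ z * Q1 z + ψ z * Q2 z)
    by_cases hz : z ∈ B
    · obtain ⟨r0, r1, r2⟩ := rr z hz
      have e1 : χ z = φ z * R z := by rw [hχ]
      have e2 : ψ z = φ z * R z ^ 4 := by rw [hψ]
      have e3 : φ z * ρ z = φ z * √(ρ z) ^ 2 := by rw [← r2]
      have e6 : (L1 z + L2' z) ^ 2 ≤ 256 * (Q1 z + Q2 z) := by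
        rw [hL1, hL2, hQ1, hQ2]
        have := lag (a := |d h 1 (d h 1 (d h 1 u)) z|) (b := |d h I (d h I (d h I u)) z|)
          (c := |d h 1 (d h I (d h I u)) z|) (d := |d h I (d h 1 (d h 1 u)) z|)
        simp only [sq_abs] at this
        beta_reduce
        linarith
      rw [e1, e2, r1, e3]
      generalize L1 z = l1 at *
      generalize L2' z = l2 at *
      generalize Q1 z = x1 at *
      generalize Q2 z = x2 at *
      generalize √(ρ z) = r at *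
      have e4 : t / 2 * (φ z * r ^ 2) + 1 / (2 * t) * 256 * (φ z * r⁻¹ ^ 4 * x1 +
          φ z * r⁻¹ ^ 4 * x2) - (φ z * r⁻¹ * l1 + φ z * r⁻¹ * l2) =
          φ z / (2 * t) * (t * r - r⁻¹ ^ 2 * (l1 + l2)) ^ 2 +
          φ z / (2 * t) * r⁻¹ ^ 4 * (256 * (x1 + x2) - (l1 + l2) ^ 2) := by
        field_simp
        ring
      have e5 : 0 ≤ φ z / (2 * t) * (t * r - r⁻¹ ^ 2 * (l1 + l2)) ^ 2 := by
        have := hφ0 z
        positivity
      have e7 : 0 ≤ φ z / (2 * t) * r⁻¹ ^ 4 * (256 * (x1 + x2) - (l1 + l2) ^ 2) := by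
        have := hφ0 z
        exact mul_nonneg (by positivity) (by linarith)
      linarith
    · have hzS : z ∉ S := fun h => hz (hSB h)
      rw [zχ z hzS, zψ z hzS, z0 z hzS]; simp
  -- for every `κ`
  have cu : ContinuousOn u S := s0.continuousOn.mono hSB
  have cg : ContinuousOn (fun z => g (u z)) S := hg.continuous.comp_continuousOn cu
  have iφχ : Integrable χ := Tχ.1.continuous.integrable_of_hasCompactSupport Tχ.2.1
  have i0 : Integrable (fun z => φ z * (g (u z) * (|u z| * √|u z|) * ρ z)) :=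
    rint hSc (cφS.mul ((cg.mul (cu.abs.mul (Real.continuous_sqrt.comp_continuousOn cu.abs))).mul
      cρ)) fun z hz => by rw [z0 z hz, zero_mul]
  have each : ∀ κ : ℝ, 0 < κ → ∫ z, φ z * (g (u z) * (|u z| * √|u z|) * ρ z) ≤
      √δ * (((∫ z, χ z * L1 z) + (∫ z, χ z * L2' z)) + h * (18 * M) * ((∫ z in S, (1 : ℝ)) + E)) +
      3 * (κ * √κ) * ∫ z, χ z := by
    intro κ hκ
    have D1 := dir_sg hB hp s0 (s2 I) Tχ χ0 1 hg g1 hδ hge hκ
    have D2 := dir_sg hB hp s0 (s2 1) Tχ χ0 I hg g1 hδ hge hκ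
    have eL1 : (fun z => χ z * (11 * |d h 1 (d h 1 (d h 1 u)) z| +
        5 / 2 * |d h 1 (d h I (d h I u)) z|)) = fun z => χ z * L1 z := by rw [hL1]
    have eL2 : (fun z => χ z * (11 * |d h I (d h I (d h I u)) z| +
        5 / 2 * |d h I (d h 1 (d h 1 u)) z|)) = fun z => χ z * L2' z := by rw [hL2]
    rw [eL1] at D1
    rw [eL2] at D2
    have B1 := q1 1 (Or.inl rfl)
    have B2 := q1 I (Or.inr rfl)
    have k1 : Integrable (fun z => χ z * (g (u z) *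
        Wf κ (d h 1 (d h 1 u) z) (d h I (d h I u) z))) :=
      rint hSc (cχS.mul (cg.mul ((Wf_smooth hκ (s2 1) (s2 I)).continuousOn.mono hSB))) fun z hz =>
        by rw [zχ z hz, zero_mul]
    have k2 : Integrable (fun z => χ z * (g (u z) *
        Wf κ (d h I (d h I u) z) (d h 1 (d h 1 u) z))) :=
      rint hSc (cχS.mul (cg.mul ((Wf_smooth hκ (s2 I) (s2 1)).continuousOn.mono hSB))) fun z hz =>
        by rw [zχ z hz, zero_mul]
    have k3 : Integrable (fun z => 3 * (κ * √κ) * χ z) := iφχ.const_mul _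
    have k12 := k1.add k2
    have tot : ∫ z, φ z * (g (u z) * (|u z| * √|u z|) * ρ z) ≤
        ∫ z, (((fun z => χ z * (g (u z) * Wf κ (d h 1 (d h 1 u) z) (d h I (d h I u) z))) +
          fun z => χ z * (g (u z) * Wf κ (d h I (d h I u) z) (d h 1 (d h 1 u) z))) z +
          3 * (κ * √κ) * χ z) := by
      refine integral_mono i0 (k12.add k3) fun z => ?_
      show φ z * (g (u z) * (|u z| * √|u z|) * ρ z) ≤
        χ z * (g (u z) * Wf κ (d h 1 (d h 1 u) z) (d h I (d h I u) z)) +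
          χ z * (g (u z) * Wf κ (d h I (d h I u) z) (d h 1 (d h 1 u) z)) + 3 * (κ * √κ) * χ z
      by_cases hz : z ∈ B
      · obtain ⟨r0, r1, r2⟩ := rr z hz
        have h1 := hu.eq z hz
        have h2 := Wf_sum hκ (d h 1 (d h 1 u) z) (d h I (d h I u) z)
        rw [h1, abs_neg] at h2
        have h3 : |u z| * √|u z| * ρ z = (√(ρ z))⁻¹ * (|ρ z * u z| * √|ρ z * u z|) := by
          rw [abs_mul, abs_of_pos (ρ0 z hz), Real.sqrt_mul (ρ0 z hz).le]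
          field_simp
        have e1 : φ z * (g (u z) * (|u z| * √|u z|) * ρ z) =
            χ z * (g (u z) * (|ρ z * u z| * √|ρ z * u z|)) := by
          have e2 : χ z = φ z * R z := by rw [hχ]
          rw [mul_assoc (g (u z)), h3, e2, r1]; ring
        rw [e1]
        generalize Wf κ (d h 1 (d h 1 u) z) (d h I (d h I u) z) = w1 at *
        generalize Wf κ (d h I (d h I u) z) (d h 1 (d h 1 u) z) = w2 at *
        generalize |ρ z * u z| * √|ρ z * u z| = x at *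
        have h5 : g (u z) * (x - (w1 + w2)) ≤ 3 * (κ * √κ) := by
          refine (le_abs_self _).trans ?_
          rw [abs_mul]
          calc |g (u z)| * |x - (w1 + w2)| ≤ 1 * (3 * (κ * √κ)) :=
                mul_le_mul (g1 _) h2 (abs_nonneg _) zero_le_one
            _ = 3 * (κ * √κ) := one_mul _
        have h6 := mul_le_mul_of_nonneg_left h5 (χ0 z)
        linarith
      · have hzS : z ∉ S := fun h => hz (hSB h)
        rw [z0 z hzS, zχ z hzS]; simp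
    rw [integral_add k12 k3, integral_const_mul] at tot
    have ev : ∫ z, ((fun z => χ z * (g (u z) * Wf κ (d h 1 (d h 1 u) z) (d h I (d h I u) z))) +
          fun z => χ z * (g (u z) * Wf κ (d h I (d h I u) z) (d h 1 (d h 1 u) z))) z =
        (∫ z, χ z * (g (u z) * Wf κ (d h 1 (d h 1 u) z) (d h I (d h I u) z))) +
          ∫ z, χ z * (g (u z) * Wf κ (d h I (d h I u) z) (d h 1 (d h 1 u) z)) := integral_add k1 k2
    rw [ev] at tot
    have B1' := mul_le_mul_of_nonneg_left B1 (by positivity : 0 ≤ √δ * (h * 9))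
    have B2' := mul_le_mul_of_nonneg_left B2 (by positivity : 0 ≤ √δ * (h * 9))
    linarith
  have lim : Tendsto (fun κ : ℝ => √δ * (((∫ z, χ z * L1 z) + (∫ z, χ z * L2' z)) +
      h * (18 * M) * ((∫ z in S, (1 : ℝ)) + E)) + 3 * (κ * √κ) * ∫ z, χ z) (𝓝[>] 0)
      (𝓝 (√δ * (((∫ z, χ z * L1 z) + (∫ z, χ z * L2' z)) +
      h * (18 * M) * ((∫ z in S, (1 : ℝ)) + E)) + 3 * ((0 : ℝ) * √(0 : ℝ)) * ∫ z, χ z)) := by
    refine Tendsto.mono_left ?_ nhdsWithin_le_nhds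
    refine Continuous.tendsto (f := fun κ : ℝ => √δ * (((∫ z, χ z * L1 z) +
      (∫ z, χ z * L2' z)) + h * (18 * M) * ((∫ z in S, (1 : ℝ)) + E)) +
      3 * (κ * √κ) * ∫ z, χ z) ?_ 0
    fun_prop
  have fin := ge_of_tendsto lim (eventually_nhdsWithin_of_forall fun κ hκ => each κ hκ)
  rw [zero_mul, mul_zero, zero_mul, add_zero] at fin
  refine fin.trans (mul_le_mul_of_nonneg_left ?_ sδ)
  have c1 : √((∫ z, φ z * ρ z) * (256 * ((∫ z, ψ z * Q1 z) + (∫ z, ψ z * Q2 z)))) ≤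
      16 * √((∫ z, φ z * ρ z) * ((∫ z, φ z * (ρ z * u z ^ 2)) +
        h * (K3 + K4 + K2 + 18 * M) * E)) := by
    have e1 : (∫ z, φ z * ρ z) * (256 * ((∫ z, ψ z * Q1 z) + (∫ z, ψ z * Q2 z))) =
        16 ^ 2 * ((∫ z, φ z * ρ z) * ((∫ z, ψ z * Q1 z) + (∫ z, ψ z * Q2 z))) := by ring
    rw [e1, Real.sqrt_mul (by norm_num), Real.sqrt_sq (by norm_num)]
    exact mul_le_mul_of_nonneg_left (Real.sqrt_le_sqrt (mul_le_mul_of_nonneg_left en A0))
      (by norm_num)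
  have c2 : h * (18 * M) * ((∫ z in S, (1 : ℝ)) + E) ≤
      h * (K3 + K4 + K2 + 18 * M) * ((∫ z in S, (1 : ℝ)) + E) := by
    have : 0 ≤ h * (K3 + K4 + K2) * ((∫ z in S, (1 : ℝ)) + E) := by positivity
    linarith
  linarith

/-- **The eventual inequality for signed functions.** -/
theorem U2s {Ω : Set ℂ} {ρ : ℂ → ℝ} {lam : ℕ → ℝ} {u : ℕ → ℂ → ℝ} (H : Hyp Ω ρ lam u)
    {φ : ℂ → ℝ} (hφ : Test Ω φ) {m : ℝ} (hm : ∀ᶠ n in atTop, ∫ z, φ z * (ρ z * u n z ^ 2) ≤ m)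
    {ε : ℝ} (ε0 : 0 < ε) :
    ∀ᶠ n in atTop, ∀ (g : ℝ → ℝ) (δ : ℝ),
      ContDiff ℝ ∞ g → (∀ x, |g x| ≤ 1) → 0 < δ → (∀ x, |Pr g x| ≤ δ) →
      |∫ z, φ z * (g (u n z) * (|u n z| * √|u n z|) * ρ z)| ≤
        (16 * √((∫ z, φ z * ρ z) * m) + ε) * √δ := by
  obtain ⟨K, K0, HK⟩ := U1s H.oΩ (⟨hφ.1, hφ.2.1, hφ.2.2.1⟩ : TF Ω φ) hφ.2.2.2 H.sρ H.pρ
  obtain ⟨h, Q, Q0, h0, hQ⟩ := seq_bd3 H hφ.2.1 hφ.2.2.1
  obtain ⟨A, hA⟩ : ∃ A : ℝ, A = ∫ z, φ z * ρ z := ⟨_, rfl⟩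
  obtain ⟨L, hL⟩ : ∃ L : ℝ, L = ∫ z in tsupport φ, (1 : ℝ) := ⟨_, rfl⟩
  have A0 : 0 ≤ A := by
    rw [hA]
    refine integral_nonneg fun z => ?_
    show 0 ≤ φ z * ρ z
    by_cases hz : z ∈ Ω
    · exact mul_nonneg (hφ.2.2.2 z) (H.pρ z hz).le
    · rw [image_eq_zero_of_notMem_tsupport fun h => hz (hφ.2.2.1 h), zero_mul]
  have lim : Tendsto (fun n => 16 * √(A * (m + h n * K * Q)) + h n * K * (L + Q)) atTop
      (𝓝 (16 * √(A * (m + 0 * K * Q)) + 0 * K * (L + Q))) := by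
    have c : Continuous fun x : ℝ => 16 * √(A * (m + x * K * Q)) + x * K * (L + Q) := by fun_prop
    exact (c.tendsto 0).comp h0
  have lt : 16 * √(A * (m + 0 * K * Q)) + 0 * K * (L + Q) < 16 * √(A * m) + ε := by
    simp only [zero_mul, add_zero]; linarith
  filter_upwards [hm, hQ, lim.eventually_lt_const lt, h0.eventually_le_const one_pos] with n hm hQ l1 h1
  have one : ∀ (g : ℝ → ℝ) (δ : ℝ),
      ContDiff ℝ ∞ g → (∀ x, |g x| ≤ 1) → 0 < δ → (∀ x, |Pr g x| ≤ δ) →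
      ∫ z, φ z * (g (u n z) * (|u n z| * √|u n z|) * ρ z) ≤
        (16 * √((∫ z, φ z * ρ z) * m) + ε) * √δ := by
    intro g δ hg g1 hδ hge
    have F := HK (h n) (u n) hQ.1 h1 g δ hg g1 hδ hge
    have hp := hQ.1.hp
    rw [← hA, ← hL] at F
    rw [← hA]
    refine F.trans ?_
    rw [mul_comm _ (√δ)]
    refine mul_le_mul_of_nonneg_left (le_trans ?_ l1.le) (Real.sqrt_nonneg _)
    have E := hQ.2
    generalize ∫ z in tsupport φ, e3 (h n) (u n) z = E' at *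
    have b1 : √(A * ((∫ z, φ z * (ρ z * u n z ^ 2)) + h n * K * E')) ≤
        √(A * (m + h n * K * Q)) := by
      refine Real.sqrt_le_sqrt (mul_le_mul_of_nonneg_left ?_ A0)
      have := mul_le_mul_of_nonneg_left E (by positivity : 0 ≤ h n * K)
      linarith
    have b2 : h n * K * (L + E') ≤ h n * K * (L + Q) :=
      mul_le_mul_of_nonneg_left (by linarith) (by positivity)
    linarith
  intro g δ hg g1 hδ hge
  have h1 := one g δ hg g1 hδ hge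
  have h2 := one (fun x => -g x) δ hg.neg (fun x => by rw [abs_neg]; exact g1 x) hδ (fun x => by
    have : Pr (fun x => -g x) x = -Pr g x := intervalIntegral.integral_neg
    rw [this, abs_neg]; exact hge x)
  have h3 : ∫ z, φ z * (-g (u n z) * (|u n z| * √|u n z|) * ρ z) =
      -∫ z, φ z * (g (u n z) * (|u n z| * √|u n z|) * ρ z) := by
    rw [← integral_neg]
    congr 1
    funext z; ring
  rw [h3] at h2
  rw [abs_le]
  constructor <;> linarith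

end

end Pool.Agent.Helper99.HD
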